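import Pool.Agent.Lib.MP_678664_lc_FN.Defs

/-! # Module N: circuits with few NOT gates and chains of random sets -/

open Finset

namespace FewNeg

namespace Neg

theorem mono_aux {ι : Type} (C : Circuit ι) (β : ℕ → Prop) {x y : ι → Prop}
    (hxy : ∀ v, x v → y v) (i : ℕ) : C.mval β x i → C.mval β y i := by
  induction i using Nat.strong_induction_on with
  | _ i ih =>
    intro h
    unfold Circuit.mval at h ⊢
    cases hC : C i with
    | input v => rw [hC] at h; exact hxy v h
    | const b => rw [hC] at h; exact h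
    | and a b => rw [hC] at h; exact ⟨ih a a.isLt h.1, ih b b.isLt h.2⟩
    | or a b =>
      rw [hC] at h
      exact h.imp (ih a a.isLt) (ih b b.isLt)
    | not a => rw [hC] at h; exact h

/-- If the constants are the right ones below `i`, then `mval` is `val`. -/
theorem mval_iff {ι : Type} (C : Circuit ι) (β : ℕ → Prop) (x : ι → Prop) (i : ℕ)
    (h : ∀ j ≤ i, (C j).isNot = true → (β j ↔ C.val x j)) : C.mval β x i ↔ C.val x i := by
  induction i using Nat.strong_induction_on with
  | _ i ih =>
    have ih' : ∀ a : Fin i, C.mval β x a ↔ C.val x a := fun a =>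
      ih a a.isLt (fun j hj hn => h j (hj.trans a.isLt.le) hn)
    cases hC : C i with
    | input v => unfold Circuit.mval Circuit.val; rw [hC]
    | const b => unfold Circuit.mval Circuit.val; rw [hC]
    | and a b =>
      unfold Circuit.mval Circuit.val
      rw [hC]
      exact and_congr (ih' a) (ih' b)
    | or a b =>
      unfold Circuit.mval Circuit.val
      rw [hC]
      exact or_congr (ih' a) (ih' b)
    | not a =>
      have h1 := h i le_rfl (by rw [hC]; rfl)
      unfold Circuit.mval
      rw [hC]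
      exact h1

/-- The predecessor of a NOT gate. -/
def pre {ι : Type} (C : Circuit ι) (o j : ℕ) : ℕ :=
  match C j with
  | .not a => a
  | _ => o

end Neg

/-- If a circuit separates `x ≤ y`, then so does one of `(t + 1) * 2 ^ t` monotone functions. -/
theorem neg_separate {ι : Type} (C : Circuit ι) (o s : ℕ) (ho : o < s) :
    ∃ H : Finset (ℕ × Finset ℕ), H.card ≤ (C.numNot s + 1) * 2 ^ C.numNot s ∧
      (∀ h ∈ H, h.1 < s) ∧
      ∀ x y : ι → Prop, (∀ v, x v → y v) → ¬ C.val x o → C.val y o →
        ∃ h ∈ H, ¬ C.mval (fun j => j ∈ h.2) x h.1 ∧ C.mval (fun j => j ∈ h.2) y h.1 := by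
  classical
  set J : Finset ℕ := (range s).filter fun i => (C i).isNot = true with hJ
  have hJc : J.card = C.numNot s := rfl
  refine ⟨(insert o (J.image (Neg.pre C o))) ×ˢ J.powerset, ?_, ?_, ?_⟩
  · rw [card_product, card_powerset, hJc]
    apply Nat.mul_le_mul_right
    refine (card_insert_le _ _).trans ?_
    rw [← hJc]
    exact Nat.add_le_add_right card_image_le 1
  · intro h hh
    rw [mem_product, mem_insert, mem_image] at hh
    rcases hh.1 with h1 | ⟨j, hj, h1⟩
    · rw [h1]; exact ho
    · rw [hJ, mem_filter, mem_range] at hj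
      rw [← h1]
      unfold Neg.pre
      cases hC : C j with
      | not a => exact a.isLt.trans hj.1
      | _ => exact ho
  · intro x y hxy hx hy
    set P : Finset ℕ := J.filter fun j => C.val x j with hP
    have hPJ : P ∈ J.powerset := by rw [mem_powerset]; exact filter_subset _ _
    have hPx : ∀ j < s, (C j).isNot = true → (j ∈ P ↔ C.val x j) := by
      intro j hj hn
      rw [hP, mem_filter, hJ, mem_filter, mem_range]
      exact ⟨fun h => h.2, fun h => ⟨⟨hj, hn⟩, h⟩⟩
    by_cases hall : ∀ j ≤ o, (C j).isNot = true → (C.val x j ↔ C.val y j)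
    · refine ⟨(o, P), ?_, ?_, ?_⟩
      · rw [mem_product]; exact ⟨mem_insert_self _ _, hPJ⟩
      · rw [Neg.mval_iff C _ x o (fun j hj hn => hPx j (lt_of_le_of_lt hj ho) hn)]
        exact hx
      · rw [Neg.mval_iff C _ y o (fun j hj hn =>
          (hPx j (lt_of_le_of_lt hj ho) hn).trans (hall j hj hn))]
        exact hy
    · have hex : ∃ j, j ≤ o ∧ (C j).isNot = true ∧ ¬ (C.val x j ↔ C.val y j) := by
        by_contra hno
        apply hall
        intro j hj hn
        by_contra h
        exact hno ⟨j, hj, hn, h⟩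
      obtain ⟨hj1, hj2, hj3⟩ := Nat.find_spec hex
      have hmin := fun m hm => Nat.find_min hex (m := m) hm
      set j := Nat.find hex with hjdef
      have hjs : j < s := lt_of_le_of_lt hj1 ho
      cases hC : C j with
      | not a =>
        have haj : (a : ℕ) < j := a.isLt
        have hvx : C.val x j ↔ ¬ C.val x a := by
          rw [Circuit.val.eq_def, hC]
        have hvy : C.val y j ↔ ¬ C.val y a := by
          rw [Circuit.val.eq_def, hC]
        have hne : ¬ (C.val x a ↔ C.val y a) := by
          intro h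
          apply hj3
          rw [hvx, hvy, h]
        have hbelow : ∀ i ≤ (a : ℕ), (C i).isNot = true → (C.val x i ↔ C.val y i) := by
          intro i hi hn
          by_contra h
          exact hmin i (lt_of_le_of_lt hi haj) ⟨((hi.trans haj.le).trans hj1), hn, h⟩
        have hmx := Neg.mval_iff C (fun j => j ∈ P) x a
          (fun i hi hn => hPx i (lt_of_le_of_lt (hi.trans haj.le) hjs) hn)
        have hmy := Neg.mval_iff C (fun j => j ∈ P) y a
          (fun i hi hn => (hPx i (lt_of_le_of_lt (hi.trans haj.le) hjs) hn).trans (hbelow i hi hn))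
        have hmono := Neg.mono_aux C (fun j => j ∈ P) hxy a
        rw [hmx, hmy] at hmono
        refine ⟨((a : ℕ), P), ?_, ?_, ?_⟩
        · rw [mem_product]
          refine ⟨mem_insert_of_mem (mem_image.2 ⟨j, ?_, ?_⟩), hPJ⟩
          · rw [hJ, mem_filter, mem_range]; exact ⟨hjs, hj2⟩
          · unfold Neg.pre; rw [hC]
        · change ¬ C.mval (fun j => j ∈ P) x a
          rw [hmx]
          intro h
          exact hne ⟨fun _ => hmono h, fun _ => h⟩
        · change C.mval (fun j => j ∈ P) y a
          rw [hmy]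
          by_contra h
          exact hne ⟨fun h' => absurd (hmono h') h, fun h' => absurd h' h⟩
      | input v => rw [hC] at hj2; exact absurd hj2 (by simp [Gate.isNot])
      | const b => rw [hC] at hj2; exact absurd hj2 (by simp [Gate.isNot])
      | and a b => rw [hC] at hj2; exact absurd hj2 (by simp [Gate.isNot])
      | or a b => rw [hC] at hj2; exact absurd hj2 (by simp [Gate.isNot])

namespace Neg

section TL

variable {E : Type} [Fintype E] [DecidableEq E]

theorem avg_add {Z : Type} [Fintype Z] (F G : Z → ℝ) :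
    avg (fun z => F z + G z) = avg F + avg G := by
  unfold avg; rw [sum_add_distrib, add_div]

theorem avg_smul {Z : Type} [Fintype Z] (c : ℝ) (F : Z → ℝ) :
    avg (fun z => c * F z) = c * avg F := by
  unfold avg; rw [← mul_sum, mul_div_assoc]

theorem avg_const {Z : Type} [Fintype Z] [Nonempty Z] (c : ℝ) : avg (fun _ : Z => c) = c := by
  unfold avg
  rw [sum_const, nsmul_eq_mul, card_univ]
  field_simp

theorem avg_mono {Z : Type} [Fintype Z] {F G : Z → ℝ} (h : ∀ z, F z ≤ G z) : avg F ≤ avg G := by
  unfold avg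
  exact div_le_div_of_nonneg_right (sum_le_sum fun z _ => h z) (Nat.cast_nonneg _)

theorem avg_sum {Z κ : Type} [Fintype Z] (s : Finset κ) (F : κ → Z → ℝ) :
    avg (fun z => ∑ i ∈ s, F i z) = ∑ i ∈ s, avg (F i) := by
  unfold avg
  rw [sum_comm, sum_div]

/-- `T` as a linear map. -/
noncomputable def TL (Q : ℕ) : (Set E → ℝ) →ₗ[ℝ] (Set E → ℝ) where
  toFun := T Q
  map_add' F G := by
    funext S
    exact avg_add _ _
  map_smul' c F := by
    funext S
    exact avg_smul _ _

theorem TL_pow (Q N : ℕ) (F : Set E → ℝ) : (T Q)^[N] F = ((TL Q) ^ N) F := by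
  rw [Module.End.pow_apply]
  rfl

omit [Fintype E] [DecidableEq E] in
theorem ne_fun {Q : ℕ} (hQ : 0 < Q) : Nonempty (E → Fin Q) := ⟨fun _ => ⟨0, hQ⟩⟩

theorem TN_const {Q : ℕ} (hQ : 0 < Q) (N : ℕ) (c : ℝ) :
    (T Q)^[N] (fun _ : Set E => c) = fun _ => c := by
  induction N with
  | zero => rfl
  | succ N ih =>
    rw [Function.iterate_succ_apply]
    have : T Q (fun _ : Set E => c) = fun _ => c := by
      funext S
      have := ne_fun (E := E) hQ
      exact avg_const c
    rw [this, ih]

theorem TN_mono {Q : ℕ} {F F' : Set E → ℝ} (h : ∀ S, F S ≤ F' S) (N : ℕ) (S : Set E) :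
    (T Q)^[N] F S ≤ (T Q)^[N] F' S := by
  induction N generalizing F F' S with
  | zero => exact h S
  | succ N ih =>
    rw [Function.iterate_succ_apply, Function.iterate_succ_apply]
    exact ih (fun S => avg_mono fun η => h _) S

/-- A monotone function increases. -/
theorem TN_le {Q : ℕ} (hQ : 0 < Q) {F : Set E → ℝ} (h : ∀ S S', S ⊆ S' → F S ≤ F S') (N : ℕ)
    (S : Set E) : F S ≤ (T Q)^[N] F S := by
  induction N generalizing F S with
  | zero => exact le_rfl
  | succ N ih =>
    rw [Function.iterate_succ_apply]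
    have h1 : ∀ S, F S ≤ T Q F S := by
      intro S
      have := ne_fun (E := E) hQ
      calc F S = avg (fun _ : E → Fin Q => F S) := (avg_const _).symm
        _ ≤ _ := avg_mono fun η => h _ _ Set.subset_union_left
    have h2 : ∀ S S', S ⊆ S' → T Q F S ≤ T Q F S' := by
      intro S S' hS
      exact avg_mono fun η => h _ _ (Set.union_subset_union_left _ hS)
    exact (h1 S).trans (ih h2 S)

theorem ind_nonneg (p : Prop) : 0 ≤ ind p := by
  unfold ind; split_ifs <;> norm_num

theorem ind_le_one (p : Prop) : ind p ≤ 1 := by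
  unfold ind; split_ifs <;> norm_num

theorem ind_mono {p q : Prop} (h : p → q) : ind p ≤ ind q := by
  unfold ind
  split_ifs with h1 h2 h2
  · exact le_rfl
  · exact absurd (h h1) h2
  · norm_num
  · exact le_rfl

theorem ind_of {p : Prop} (h : p) : ind p = 1 := by unfold ind; rw [if_pos h]

theorem ind_not {p : Prop} (h : ¬ p) : ind p = 0 := by unfold ind; rw [if_neg h]

end TL

/-- The lower bound in abstract form, from the approximation bound for monotone circuits. -/
theorem neg_bound_of {ι E Z : Type} [Fintype E] [DecidableEq E] [Fintype Z] [Nonempty Z]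
    {Q R : ℕ} (hQ : 0 < Q) {Y : Z → Set E} {e : ℝ} (he : 0 ≤ e)
    {a : Set E → ι → Prop} (hamono : ∀ S S' : Set E, S ⊆ S' → ∀ v, a S v → a S' v)
    (C : Circuit ι) {o s m : ℕ} (ho : o < s)
    (hmono : ∀ (β : ℕ → Prop) (i : ℕ), i < s → ∀ G : Set E,
      avg (fun z => ind (C.mval β (a (G ∪ Y z)) i))
        ≤ (T Q)^[R] (fun S => ind (C.mval β (a S) i)) G + e)
    (h1 : ∀ S z, Y z ⊆ S → C.val (a S) o)
    (h0 : ∀ i < m, (T Q)^[i * R] (fun S => ind (C.val (a S) o)) ∅ ≤ 1 / 2) :
    (m : ℝ) / 2 ≤ ((C.numNot s + 1) * 2 ^ C.numNot s : ℕ) * (1 + m * e) := by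
  classical
  obtain ⟨H, hH, hHs, hsep⟩ := neg_separate C o s ho
  set F : ℕ × Finset ℕ → Set E → ℝ :=
    fun h S => ind (C.mval (fun j => j ∈ h.2) (a S) h.1) with hF
  have hFmono : ∀ h S S', S ⊆ S' → F h S ≤ F h S' := fun h S S' hS =>
    ind_mono (mono_aux C _ (hamono S S' hS) h.1)
  -- the pointwise inequality
  have key : ∀ S : Set E, 1 - ind (C.val (a S) o) ≤
      ∑ h ∈ H, ((T Q)^[R] (F h) S - F h S + e) := by
    intro S
    have hnn : ∀ h ∈ H, 0 ≤ (T Q)^[R] (F h) S - F h S + e := by
      intro h _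
      have := TN_le hQ (hFmono h) R S
      linarith
    by_cases hv : C.val (a S) o
    · rw [ind_of hv, sub_self]
      exact sum_nonneg hnn
    · rw [ind_not hv, sub_zero]
      calc (1 : ℝ) = avg (fun _ : Z => (1 : ℝ)) := (avg_const 1).symm
        _ ≤ avg (fun z : Z => ∑ h ∈ H, ind (¬ C.mval (fun j => j ∈ h.2) (a S) h.1 ∧
              C.mval (fun j => j ∈ h.2) (a (S ∪ Y z)) h.1)) := by
            apply avg_mono
            intro z
            obtain ⟨h, hh, hs⟩ := hsep (a S) (a (S ∪ Y z))
              (hamono _ _ Set.subset_union_left) hv (h1 _ z Set.subset_union_right)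
            calc (1 : ℝ) = ind (¬ C.mval (fun j => j ∈ h.2) (a S) h.1 ∧
                C.mval (fun j => j ∈ h.2) (a (S ∪ Y z)) h.1) := (ind_of hs).symm
              _ ≤ _ := single_le_sum (f := fun h : ℕ × Finset ℕ =>
                  ind (¬ C.mval (fun j => j ∈ h.2) (a S) h.1 ∧
                    C.mval (fun j => j ∈ h.2) (a (S ∪ Y z)) h.1))
                  (fun h _ => ind_nonneg _) hh
        _ = ∑ h ∈ H, avg (fun z : Z => ind (¬ C.mval (fun j => j ∈ h.2) (a S) h.1 ∧
              C.mval (fun j => j ∈ h.2) (a (S ∪ Y z)) h.1)) := avg_sum _ _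
        _ ≤ _ := by
            apply sum_le_sum
            intro h hh
            by_cases hm : C.mval (fun j => j ∈ h.2) (a S) h.1
            · have h2 : avg (fun z : Z => ind (¬ C.mval (fun j => j ∈ h.2) (a S) h.1 ∧
                  C.mval (fun j => j ∈ h.2) (a (S ∪ Y z)) h.1)) = 0 := by
                have : (fun z : Z => ind (¬ C.mval (fun j => j ∈ h.2) (a S) h.1 ∧
                  C.mval (fun j => j ∈ h.2) (a (S ∪ Y z)) h.1)) = fun _ => (0 : ℝ) := by
                  funext z
                  exact ind_not (fun hc => hc.1 hm)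
                rw [this, avg_const]
              rw [h2]
              exact hnn h hh
            · have hF0 : F h S = 0 := ind_not hm
              rw [hF0, sub_zero]
              refine le_trans ?_ (hmono (fun j => j ∈ h.2) h.1 (hHs h hh) S)
              exact avg_mono fun z => ind_mono fun hc => hc.2
  -- apply the averaging operators
  have step : ∀ i < m, (1 : ℝ) / 2 ≤
      ∑ h ∈ H, ((T Q)^[(i + 1) * R] (F h) ∅ - (T Q)^[i * R] (F h) ∅ + e) := by
    intro i hi
    have h2 := TN_mono (Q := Q) key (i * R) ∅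
    have e1 : (T Q)^[i * R] (fun S : Set E => 1 - ind (C.val (a S) o)) ∅ =
        1 - (T Q)^[i * R] (fun S => ind (C.val (a S) o)) ∅ := by
      have e0 : (fun S : Set E => 1 - ind (C.val (a S) o)) =
          (fun _ : Set E => (1 : ℝ)) - (fun S : Set E => ind (C.val (a S) o)) := rfl
      rw [e0, TL_pow, map_sub, Pi.sub_apply, ← TL_pow, ← TL_pow, TN_const hQ]
    have e2 : (T Q)^[i * R] (fun S : Set E =>
        ∑ h ∈ H, ((T Q)^[R] (F h) S - F h S + e)) ∅ =
        ∑ h ∈ H, ((T Q)^[(i + 1) * R] (F h) ∅ - (T Q)^[i * R] (F h) ∅ + e) := by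
      have e0 : (fun S : Set E => ∑ h ∈ H, ((T Q)^[R] (F h) S - F h S + e)) =
          ∑ h ∈ H, ((T Q)^[R] (F h) - F h + (fun _ : Set E => e)) := by
        funext S
        rw [Finset.sum_apply]
        rfl
      rw [e0, TL_pow, map_sum, Finset.sum_apply]
      apply sum_congr rfl
      intro h _
      rw [map_add, map_sub, Pi.add_apply, Pi.sub_apply, ← TL_pow, ← TL_pow, ← TL_pow,
        TN_const hQ, ← Function.iterate_add_apply, Nat.succ_mul]
    rw [e1, e2] at h2
    have h3 := h0 i hi
    linarith
  have hsum : (m : ℝ) / 2 ≤ ∑ h ∈ H, ((T Q)^[m * R] (F h) ∅ - F h ∅ + m * e) := by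
    calc (m : ℝ) / 2 = ∑ i ∈ range m, (1 : ℝ) / 2 := by
          rw [sum_const, card_range, nsmul_eq_mul]; ring
      _ ≤ ∑ i ∈ range m, ∑ h ∈ H,
            ((T Q)^[(i + 1) * R] (F h) ∅ - (T Q)^[i * R] (F h) ∅ + e) :=
          sum_le_sum fun i hi => step i (mem_range.1 hi)
      _ = ∑ h ∈ H, ((T Q)^[m * R] (F h) ∅ - F h ∅ + m * e) := by
          rw [sum_comm]
          apply sum_congr rfl
          intro h _
          rw [sum_add_distrib, sum_range_sub (fun i => (T Q)^[i * R] (F h) ∅), sum_const,
            card_range, nsmul_eq_mul, zero_mul]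
          rfl
  have hbd : ∀ h ∈ H, (T Q)^[m * R] (F h) ∅ - F h ∅ + m * e ≤ 1 + m * e := by
    intro h _
    have h4 : (T Q)^[m * R] (F h) ∅ ≤ 1 := by
      calc (T Q)^[m * R] (F h) ∅ ≤ (T Q)^[m * R] (fun _ : Set E => (1 : ℝ)) ∅ :=
            TN_mono (fun S => ind_le_one _) _ _
        _ = 1 := by rw [TN_const hQ]
    have h5 : 0 ≤ F h ∅ := ind_nonneg _
    linarith
  calc (m : ℝ) / 2 ≤ ∑ h ∈ H, ((T Q)^[m * R] (F h) ∅ - F h ∅ + m * e) := hsum
    _ ≤ ∑ h ∈ H, (1 + m * e) := sum_le_sum hbd
    _ = H.card * (1 + m * e) := by rw [sum_const, nsmul_eq_mul]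
    _ ≤ _ := by
        apply mul_le_mul_of_nonneg_right
        · exact_mod_cast hH
        · positivity

end Neg

theorem err_nonneg (N R c ρ : ℕ) : 0 ≤ err N R c ρ := by
  unfold err; positivity

end FewNeg
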