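import Pool.Agent.Lib.MP_678664_lc_FN.Basic

/-! Random layers: iterated averages, containment probabilities, second moment bound. -/

open Finset

namespace FewNeg

section Layer

variable {E : Type} [Fintype E] [DecidableEq E]

theorem T_iter_mono {Q : ℕ} {F F' : Set E → ℝ} (h : ∀ S, F S ≤ F' S) (N : ℕ) (S : Set E) :
    (T Q)^[N] F S ≤ (T Q)^[N] F' S := T_iter_mono' h N S

theorem T_iter_shift (Q : ℕ) (F : Set E → ℝ) (G : Set E) (N : ℕ) (S : Set E) :
    (T Q)^[N] (fun S => F (G ∪ S)) S = (T Q)^[N] F (G ∪ S) := by
  induction N generalizing S with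
  | zero => rfl
  | succ N ih =>
    rw [Function.iterate_succ_apply', Function.iterate_succ_apply']
    show avg _ = avg _
    congr 1
    funext η
    rw [ih (S ∪ layer η), Set.union_assoc]

/-- Exact probability for one layer. -/
theorem avg_contain {Q : ℕ} (hQ : 0 < Q) (a : Finset E) :
    avg (fun η : E → Fin Q => ind ((a : Set E) ⊆ layer η)) = (1 / (Q : ℝ)) ^ a.card := by
  classical
  have hQr : (0 : ℝ) < (Q : ℝ) := by exact_mod_cast hQ
  unfold avg
  have h1 : ∀ η : E → Fin Q, ind ((a : Set E) ⊆ layer η)
      = ∏ e : E, (if e ∈ a then (if (η e : ℕ) = 0 then (1 : ℝ) else 0) else 1) := by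
    intro η
    by_cases h : (a : Set E) ⊆ layer η
    · rw [ind_true h]
      symm
      apply Finset.prod_eq_one
      intro e _
      by_cases he : e ∈ a
      · have h2 : (η e : ℕ) = 0 := h (Finset.mem_coe.2 he)
        rw [if_pos he, if_pos h2]
      · rw [if_neg he]
    · rw [ind_false h]
      obtain ⟨e, he, hne⟩ := Set.not_subset.1 h
      have h2 : ¬ (η e : ℕ) = 0 := hne
      symm
      apply Finset.prod_eq_zero (Finset.mem_univ e)
      rw [if_pos (Finset.mem_coe.1 he), if_neg h2]
  have h3 : (∑ η : E → Fin Q, ind ((a : Set E) ⊆ layer η))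
      = ∏ e : E, ∑ x : Fin Q, (if e ∈ a then (if (x : ℕ) = 0 then (1 : ℝ) else 0) else 1) := by
    rw [Finset.sum_congr rfl fun η _ => h1 η]
    rw [Finset.prod_univ_sum, Fintype.piFinset_univ]
  have h4 : ∀ e : E, (∑ x : Fin Q, (if e ∈ a then (if (x : ℕ) = 0 then (1 : ℝ) else 0) else 1))
      = if e ∈ a then 1 else (Q : ℝ) := by
    intro e
    by_cases he : e ∈ a
    · simp only [if_pos he]
      rw [Finset.sum_eq_single (⟨0, hQ⟩ : Fin Q)]
      · simp
      · intro b _ hb
        rw [if_neg]
        intro hb0
        exact hb (Fin.ext hb0)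
      · intro h; exact absurd (Finset.mem_univ _) h
    · simp only [if_neg he]
      simp
  rw [h3, Finset.prod_congr rfl fun e _ => h4 e]
  rw [Fintype.card_fun, Fintype.card_fin]
  rw [Finset.prod_ite]
  simp only [Finset.prod_const_one, one_mul, Finset.prod_const]
  have h5 : (Finset.univ.filter fun e : E => e ∉ a).card + a.card = Fintype.card E := by
    have := Finset.card_filter_add_card_filter_not (s := (Finset.univ : Finset E)) (fun e => e ∈ a)
    rw [Finset.filter_mem_eq_inter, Finset.univ_inter, Finset.card_univ] at this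
    omega
  rw [← h5]
  push_cast
  rw [pow_add, one_div, inv_pow]
  field_simp

/-- A fixed set of size `a` is contained in the union of `N` layers with probability at most
`(N / Q) ^ a`. -/
theorem T_iter_contain' {Q : ℕ} (hQ : 0 < Q) (a : Finset E) (N : ℕ) (S : Set E) :
    (T Q)^[N] (fun S => ind ((a : Set E) ⊆ S)) S
      ≤ ∑ b ∈ a.powerset, ind ((b : Set E) ⊆ S) * ((N : ℝ) / Q) ^ (a.card - b.card) := by
  classical
  have : Nonempty (E → Fin Q) := ⟨fun _ => ⟨0, hQ⟩⟩
  have hQr : (0 : ℝ) < (Q : ℝ) := by exact_mod_cast hQ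
  induction N generalizing a S with
  | zero =>
    have h1 := Finset.single_le_sum
      (f := fun b : Finset E => ind ((b : Set E) ⊆ S) * (((0 : ℕ) : ℝ) / Q) ^ (a.card - b.card))
      (fun b _ => mul_nonneg (ind_nonneg _) (by positivity)) (Finset.mem_powerset_self a)
    simpa using h1
  | succ N ih =>
    rw [Function.iterate_succ_apply']
    calc T Q ((T Q)^[N] fun S => ind ((a : Set E) ⊆ S)) S
        ≤ T Q (fun S => ∑ b ∈ a.powerset, ind ((b : Set E) ⊆ S) *
            ((N : ℝ) / Q) ^ (a.card - b.card)) S := T_mono (ih a) S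
      _ = ∑ b ∈ a.powerset, ((N : ℝ) / Q) ^ (a.card - b.card) *
            avg (fun η : E → Fin Q => ind ((b : Set E) ⊆ S ∪ layer η)) := by
          show avg _ = _
          rw [avg_sum]
          apply Finset.sum_congr rfl
          intro b _
          rw [← avg_mul_left]
          congr 1
          funext η
          ring
      _ ≤ ∑ b ∈ a.powerset, ((N : ℝ) / Q) ^ (a.card - b.card) *
            ∑ d ∈ b.powerset, ind ((d : Set E) ⊆ S) * (1 / (Q : ℝ)) ^ (b.card - d.card) := by
          apply Finset.sum_le_sum
          intro b _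
          apply mul_le_mul_of_nonneg_left _ (by positivity)
          have h1 : ∀ η : E → Fin Q, ind ((b : Set E) ⊆ S ∪ layer η) ≤
              ∑ d ∈ b.powerset, ind ((d : Set E) ⊆ S) * ind (((b \ d : Finset E) : Set E) ⊆ layer η) := by
            intro η
            by_cases h : (b : Set E) ⊆ S ∪ layer η
            · rw [ind_true h]
              have h2 := Finset.single_le_sum
                (f := fun d : Finset E => ind ((d : Set E) ⊆ S) *
                  ind (((b \ d : Finset E) : Set E) ⊆ layer η))
                (fun d _ => mul_nonneg (ind_nonneg _) (ind_nonneg _))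
                (Finset.mem_powerset.2 (Finset.filter_subset (fun e => e ∈ S) b))
              refine le_trans (le_of_eq ?_) h2
              have h3 : ((b.filter fun e => e ∈ S : Finset E) : Set E) ⊆ S := by
                intro e he
                exact (Finset.mem_filter.1 (Finset.mem_coe.1 he)).2
              have h4 : ((b \ (b.filter fun e => e ∈ S) : Finset E) : Set E) ⊆ layer η := by
                intro e he
                have h5 := Finset.mem_sdiff.1 (Finset.mem_coe.1 he)
                rcases h (Finset.mem_coe.2 h5.1) with h6 | h6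
                · exact absurd (Finset.mem_filter.2 ⟨h5.1, h6⟩) h5.2
                · exact h6
              show (1 : ℝ) = ind _ * ind _
              rw [ind_true h3, ind_true h4, one_mul]
            · rw [ind_false h]
              exact Finset.sum_nonneg fun d _ => mul_nonneg (ind_nonneg _) (ind_nonneg _)
          refine (avg_mono h1).trans (le_of_eq ?_)
          rw [avg_sum]
          apply Finset.sum_congr rfl
          intro d hd
          rw [avg_mul_left, avg_contain hQ,
            Finset.card_sdiff_of_subset (Finset.mem_powerset.1 hd)]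
      _ = ∑ d ∈ a.powerset, ind ((d : Set E) ⊆ S) *
            (((N + 1 : ℕ) : ℝ) / Q) ^ (a.card - d.card) := by
          have h1 : ∀ d ∈ a.powerset, ∑ b ∈ a.powerset,
              (if d ⊆ b then ((N : ℝ) / Q) ^ (a.card - b.card) * (1 / (Q : ℝ)) ^ (b.card - d.card)
                else 0) = (((N + 1 : ℕ) : ℝ) / Q) ^ (a.card - d.card) := by
            intro d hd
            have hda := Finset.mem_powerset.1 hd
            rw [← Finset.sum_filter]
            have h2 := Finset.sum_pow_mul_eq_add_pow (1 / (Q : ℝ)) ((N : ℝ) / Q) (a \ d)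
            rw [Finset.card_sdiff_of_subset hda] at h2
            have h3 : (((N + 1 : ℕ) : ℝ) / Q) = 1 / (Q : ℝ) + (N : ℝ) / Q := by
              push_cast; ring
            rw [h3, ← h2]
            symm
            apply Finset.sum_bij' (fun (e : Finset E) _ => d ∪ e) (fun (b : Finset E) _ => b \ d)
            · intro e he
              have he' := Finset.mem_powerset.1 he
              rw [Finset.mem_filter, Finset.mem_powerset]
              exact ⟨Finset.union_subset hda (he'.trans Finset.sdiff_subset),
                Finset.subset_union_left⟩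
            · intro b hb
              rw [Finset.mem_filter, Finset.mem_powerset] at hb
              rw [Finset.mem_powerset]
              exact Finset.sdiff_subset_sdiff hb.1 (le_refl d)
            · intro e he
              have he' := Finset.mem_powerset.1 he
              ext x
              simp only [mem_sdiff, mem_union]
              constructor
              · rintro ⟨h | h, h'⟩
                · exact absurd h h'
                · exact h
              · intro h
                exact ⟨Or.inr h, (Finset.mem_sdiff.1 (he' h)).2⟩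
            · intro b hb
              rw [Finset.mem_filter] at hb
              exact Finset.union_sdiff_of_subset hb.2
            · intro e he
              have he' := Finset.mem_powerset.1 he
              have hdis : Disjoint d e := by
                rw [Finset.disjoint_left]
                intro x hx hxe
                exact (Finset.mem_sdiff.1 (he' hxe)).2 hx
              rw [Finset.card_union_of_disjoint hdis, Nat.add_sub_cancel_left, mul_comm]
              congr 2
              omega
          have h4 : ∀ b ∈ a.powerset, ((N : ℝ) / Q) ^ (a.card - b.card) *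
              ∑ d ∈ b.powerset, ind ((d : Set E) ⊆ S) * (1 / (Q : ℝ)) ^ (b.card - d.card)
              = ∑ d ∈ a.powerset, ind ((d : Set E) ⊆ S) *
                (if d ⊆ b then ((N : ℝ) / Q) ^ (a.card - b.card) *
                  (1 / (Q : ℝ)) ^ (b.card - d.card) else 0) := by
            intro b hb
            have hba := Finset.mem_powerset.1 hb
            rw [Finset.mul_sum]
            have h5 : b.powerset = a.powerset.filter fun d => d ⊆ b := by
              ext d
              simp only [mem_powerset, mem_filter]
              exact ⟨fun h => ⟨h.trans hba, h⟩, fun h => h.2⟩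
            rw [h5, Finset.sum_filter]
            apply Finset.sum_congr rfl
            intro d _
            by_cases h : d ⊆ b
            · rw [if_pos h, if_pos h]; ring
            · rw [if_neg h, if_neg h, mul_zero]
          rw [Finset.sum_congr rfl h4, Finset.sum_comm]
          apply Finset.sum_congr rfl
          intro d hd
          rw [← Finset.mul_sum, h1 d hd]

theorem T_iter_contain {Q : ℕ} (hQ : 0 < Q) (a : Finset E) (N : ℕ) :
    (T Q)^[N] (fun S => ind ((a : Set E) ⊆ S)) ∅ ≤ ((N : ℝ) / Q) ^ a.card := by
  refine (T_iter_contain' hQ a N ∅).trans (le_of_eq ?_)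
  rw [Finset.sum_eq_single (∅ : Finset E)]
  · rw [ind_true (by simp), one_mul, Finset.card_empty, Nat.sub_zero]
  · intro b _ hb
    rw [ind_false, zero_mul]
    intro h
    apply hb
    rw [← Finset.coe_eq_empty]
    exact Set.subset_empty_iff.1 h
  · intro h
    exact absurd (Finset.empty_mem_powerset a) h

end Layer

namespace SecondAux

variable {E : Type} [Fintype E] [DecidableEq E]

theorem cauchy {Z : Type} [Fintype Z] [Nonempty Z] (f g : Z → ℝ) :
    (avg fun z => f z * g z) ^ 2 ≤ (avg fun z => f z ^ 2) * avg fun z => g z ^ 2 := by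
  unfold avg
  have hM : (0 : ℝ) < Fintype.card Z := by exact_mod_cast Fintype.card_pos
  rw [div_pow, div_mul_div_comm, ← pow_two]
  apply div_le_div_of_nonneg_right _ (by positivity)
  exact Finset.sum_mul_sq_le_sq_mul_sq _ _ _

theorem second_moment_aux {Q : ℕ} (hQ : 0 < Q)
    (hcont : ∀ a : Finset E,
      avg (fun η : E → Fin Q => ind ((a : Set E) ⊆ layer η)) = (1 / (Q : ℝ)) ^ a.card)
    (F : Finset (Finset E)) (b : Finset E) (l lam : ℕ)
    (hF : ∀ a ∈ F, b ⊆ a ∧ a.card = l) (hne : F.Nonempty)
    (hdeg : ∀ d : Finset E, b ⊂ d → (F.filter fun a => d ⊆ a).card ≤ (lam * Q) ^ (l - d.card)) :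
    ((F.card : ℝ) / Q ^ (l - b.card)) /
        ((F.card : ℝ) / Q ^ (l - b.card) + (((1 + lam : ℕ) : ℝ) ^ (l - b.card)
          - (lam : ℝ) ^ (l - b.card)))
      ≤ avg (fun η : E → Fin Q => ind (∃ a ∈ F, (a : Set E) ⊆ (b : Set E) ∪ layer η)) := by
  classical
  have : Nonempty (E → Fin Q) := ⟨fun _ => ⟨0, hQ⟩⟩
  have hQr : (0 : ℝ) < (Q : ℝ) := by exact_mod_cast hQ
  obtain ⟨r, hr⟩ : ∃ r, l - b.card = r := ⟨_, rfl⟩
  rw [hr]
  have hab : ∀ a ∈ F, (a \ b).card = r := by
    intro a ha
    rw [Finset.card_sdiff_of_subset (hF a ha).1, (hF a ha).2, hr]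
  have hbl : b.card + r = l := by
    obtain ⟨a, ha⟩ := hne
    have h1 := Finset.card_le_card (hF a ha).1
    rw [(hF a ha).2] at h1
    omega
  -- the event `a ⊆ b ∪ layer`
  have hev : ∀ (a : Finset E) (S : Set E), (a : Set E) ⊆ (b : Set E) ∪ S ↔
      ((a \ b : Finset E) : Set E) ⊆ S := by
    intro a S
    rw [Finset.coe_sdiff, Set.sdiff_subset_iff]
  set X : (E → Fin Q) → ℝ := fun η => ∑ a ∈ F, ind ((a : Set E) ⊆ (b : Set E) ∪ layer η) with hX
  set P : (E → Fin Q) → ℝ := fun η => ind (∃ a ∈ F, (a : Set E) ⊆ (b : Set E) ∪ layer η) with hP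
  set μ : ℝ := (F.card : ℝ) / Q ^ r with hμ
  set K : ℝ := ((1 + lam : ℕ) : ℝ) ^ r - (lam : ℝ) ^ r with hK
  have hK0 : 0 ≤ K := by
    rw [hK]
    have : (lam : ℝ) ^ r ≤ ((1 + lam : ℕ) : ℝ) ^ r := by
      apply pow_le_pow_left₀ (by positivity)
      push_cast; linarith
    linarith
  have hμ0 : 0 < μ := by
    have : (0 : ℝ) < F.card := by exact_mod_cast Finset.card_pos.2 hne
    positivity
  have hEX : avg X = μ := by
    rw [hX, avg_sum]
    have h1 : ∀ a ∈ F, avg (fun η : E → Fin Q => ind ((a : Set E) ⊆ (b : Set E) ∪ layer η))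
        = (1 / (Q : ℝ)) ^ r := by
      intro a ha
      rw [← hab a ha, ← hcont]
      congr 1
      funext η
      rw [hev]
    rw [Finset.sum_congr rfl h1, Finset.sum_const, nsmul_eq_mul, hμ, one_div, inv_pow,
      div_eq_mul_inv]
  have hEX2 : (avg fun η => X η ^ 2) ≤ μ ^ 2 + μ * K := by
    have h1 : (fun η : E → Fin Q => X η ^ 2) = fun η => ∑ a ∈ F, ∑ a' ∈ F,
        ind ((((a ∪ a') \ b : Finset E) : Set E) ⊆ layer η) := by
      funext η
      rw [hX]
      simp only
      rw [pow_two, Finset.sum_mul_sum]
      apply Finset.sum_congr rfl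
      intro a _
      apply Finset.sum_congr rfl
      intro a' _
      rw [hev, hev]
      have h2 : ((((a ∪ a') \ b : Finset E) : Set E) ⊆ layer η) ↔
          (((a \ b : Finset E) : Set E) ⊆ layer η ∧ ((a' \ b : Finset E) : Set E) ⊆ layer η) := by
        rw [Finset.union_sdiff_distrib, Finset.coe_union, Set.union_subset_iff]
      by_cases hA : ((a \ b : Finset E) : Set E) ⊆ layer η
      · by_cases hB : ((a' \ b : Finset E) : Set E) ⊆ layer η
        · rw [ind_true hA, ind_true hB, ind_true (h2.2 ⟨hA, hB⟩)]
          norm_num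
        · rw [ind_false hB, ind_false (fun h => hB (h2.1 h).2)]
          ring
      · rw [ind_false hA, ind_false (fun h => hA (h2.1 h).1)]
        ring
    have h3 : (avg fun η : E → Fin Q => X η ^ 2) =
        ∑ a ∈ F, ∑ a' ∈ F, (1 / (Q : ℝ)) ^ ((a ∪ a') \ b).card := by
      rw [h1, avg_sum]
      apply Finset.sum_congr rfl
      intro a _
      rw [avg_sum]
      apply Finset.sum_congr rfl
      intro a' _
      rw [← hcont]
    rw [h3]
    -- the exponent
    have hexp : ∀ a ∈ F, ∀ a' ∈ F, (1 / (Q : ℝ)) ^ ((a ∪ a') \ b).card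
        = (Q : ℝ) ^ ((a ∩ a') \ b).card / Q ^ (2 * r) := by
      intro a ha a' ha'
      have h4 : ((a ∪ a') \ b).card + ((a ∩ a') \ b).card = 2 * r := by
        have h5 : (a ∪ a') \ b = (a \ b) ∪ (a' \ b) := Finset.union_sdiff_distrib _ _ _
        have h6 : (a ∩ a') \ b = (a \ b) ∩ (a' \ b) := by
          ext x; simp only [mem_sdiff, mem_inter]; tauto
        rw [h5, h6, Finset.card_union_add_card_inter, hab a ha, hab a' ha']
        ring
      rw [eq_div_iff (by positivity), ← h4, pow_add, one_div, inv_pow]
      field_simp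
    have hinner : ∀ a ∈ F, ∑ a' ∈ F, (1 / (Q : ℝ)) ^ ((a ∪ a') \ b).card
        ≤ (F.card + Q ^ r * K) / Q ^ (2 * r) := by
      intro a ha
      rw [Finset.sum_congr rfl (hexp a ha), ← Finset.sum_div]
      apply div_le_div_of_nonneg_right _ (by positivity)
      -- pointwise bound
      have hpt : ∀ a' ∈ F, (Q : ℝ) ^ ((a ∩ a') \ b).card ≤ 1 +
          ∑ e ∈ (a \ b).powerset.erase ∅, if b ∪ e ⊆ a' then (Q : ℝ) ^ e.card else 0 := by
        intro a' ha'
        by_cases he : (a ∩ a') \ b = ∅
        · rw [he, Finset.card_empty, pow_zero]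
          have : 0 ≤ ∑ e ∈ (a \ b).powerset.erase ∅,
              if b ∪ e ⊆ a' then (Q : ℝ) ^ e.card else 0 := by
            apply Finset.sum_nonneg
            intro e _
            split_ifs <;> positivity
          linarith
        · have hmem : (a ∩ a') \ b ∈ (a \ b).powerset.erase ∅ := by
            rw [Finset.mem_erase, Finset.mem_powerset]
            refine ⟨he, ?_⟩
            exact Finset.sdiff_subset_sdiff Finset.inter_subset_left (le_refl b)
          have hsub : b ∪ ((a ∩ a') \ b) ⊆ a' := by
            apply Finset.union_subset (hF a' ha').1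
            exact Finset.sdiff_subset.trans Finset.inter_subset_right
          have h7 := Finset.single_le_sum
            (f := fun e : Finset E => if b ∪ e ⊆ a' then (Q : ℝ) ^ e.card else 0)
            (fun e _ => by
              show (0 : ℝ) ≤ if b ∪ e ⊆ a' then (Q : ℝ) ^ e.card else 0
              split_ifs <;> positivity) hmem
          simp only [hsub, if_true] at h7
          linarith
      refine (Finset.sum_le_sum hpt).trans ?_
      rw [Finset.sum_add_distrib, Finset.sum_const, nsmul_eq_mul, mul_one, Finset.sum_comm]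
      have h8 : ∀ e ∈ (a \ b).powerset.erase ∅,
          ∑ a' ∈ F, (if b ∪ e ⊆ a' then (Q : ℝ) ^ e.card else 0)
            ≤ (Q : ℝ) ^ r * (lam : ℝ) ^ (r - e.card) := by
        intro e he
        rw [Finset.mem_erase, Finset.mem_powerset] at he
        have hcard : (b ∪ e).card = b.card + e.card := by
          apply Finset.card_union_of_disjoint
          apply Finset.disjoint_left.2
          intro x hx hxe
          exact (Finset.mem_sdiff.1 (he.2 hxe)).2 hx
        have hlt : b ⊂ b ∪ e := by
          refine ⟨Finset.subset_union_left, fun h => he.1 ?_⟩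
          rw [Finset.eq_empty_iff_forall_notMem]
          intro x hxe
          exact (Finset.mem_sdiff.1 (he.2 hxe)).2 (h (Finset.mem_union_right _ hxe))
        have her : e.card ≤ r := by
          rw [← hab a ha]; exact Finset.card_le_card he.2
        have h9 := hdeg (b ∪ e) hlt
        rw [hcard] at h9
        have h10 : l - (b.card + e.card) = r - e.card := by omega
        rw [h10] at h9
        rw [← Finset.sum_filter, Finset.sum_const, nsmul_eq_mul]
        have h11 : ((F.filter fun a' => b ∪ e ⊆ a').card : ℝ) ≤ ((lam : ℝ) * Q) ^ (r - e.card) := by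
          exact_mod_cast h9
        calc ((F.filter fun a' => b ∪ e ⊆ a').card : ℝ) * (Q : ℝ) ^ e.card
            ≤ ((lam : ℝ) * Q) ^ (r - e.card) * (Q : ℝ) ^ e.card := by gcongr
          _ = (Q : ℝ) ^ r * (lam : ℝ) ^ (r - e.card) := by
              rw [mul_pow, mul_assoc, ← pow_add, Nat.sub_add_cancel her]; ring
      have h12 : ∑ e ∈ (a \ b).powerset.erase ∅, (lam : ℝ) ^ (r - e.card) = K := by
        have h13 := Finset.sum_pow_mul_eq_add_pow (1 : ℝ) (lam : ℝ) (a \ b)
        rw [hab a ha] at h13
        have h14 : ∑ e ∈ (a \ b).powerset, (lam : ℝ) ^ (r - e.card) = (1 + lam) ^ r := by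
          rw [← h13]
          apply Finset.sum_congr rfl
          intro e _
          rw [one_pow, one_mul]
        rw [← Finset.sum_erase_add _ _ (Finset.empty_mem_powerset (a \ b)), Finset.card_empty,
          Nat.sub_zero] at h14
        rw [hK]
        push_cast
        linarith
      refine le_trans (add_le_add_right (Finset.sum_le_sum h8) _) ?_
      rw [← Finset.mul_sum, h12]
    refine (Finset.sum_le_sum hinner).trans (le_of_eq ?_)
    rw [Finset.sum_const, nsmul_eq_mul, hμ]
    rw [two_mul r, pow_add]
    field_simp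
  have hXP : (fun η => P η * X η) = X := by
    funext η
    by_cases h : ∃ a ∈ F, (a : Set E) ⊆ (b : Set E) ∪ layer η
    · rw [hP]; simp only; rw [ind_true h, one_mul]
    · rw [hP]; simp only; rw [ind_false h, zero_mul, hX]
      symm
      apply Finset.sum_eq_zero
      intro a ha
      exact ind_false fun hh => h ⟨a, ha, hh⟩
  have hPP : (fun η => P η ^ 2) = P := by
    funext η
    by_cases h : ∃ a ∈ F, (a : Set E) ⊆ (b : Set E) ∪ layer η
    · rw [hP]; simp only; rw [ind_true h, one_pow]
    · rw [hP]; simp only; rw [ind_false h]; norm_num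
  have hcs := cauchy P X
  rw [hXP, hPP, hEX] at hcs
  have hPnn : 0 ≤ avg P := avg_nonneg fun _ => ind_nonneg _
  have h15 : μ ^ 2 ≤ avg P * (μ ^ 2 + μ * K) :=
    hcs.trans (mul_le_mul_of_nonneg_left hEX2 hPnn)
  rw [div_le_iff₀ (by linarith)]
  have h16 : μ * μ ≤ μ * (avg P * (μ + K)) := by nlinarith
  exact le_of_mul_le_mul_left h16 hμ0

end SecondAux

section Layer

variable {E : Type} [Fintype E] [DecidableEq E]

/-- Second moment bound for one layer: `F` is a family of sets of size `l` containing `b`, and
the number of members containing `d` is at most `(lam * Q) ^ (l - d.card)` for `d ⊃ b`. -/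
theorem second_moment {Q : ℕ} (hQ : 0 < Q) (F : Finset (Finset E)) (b : Finset E) (l lam : ℕ)
    (hF : ∀ a ∈ F, b ⊆ a ∧ a.card = l) (hne : F.Nonempty)
    (hdeg : ∀ d : Finset E, b ⊂ d → (F.filter fun a => d ⊆ a).card ≤ (lam * Q) ^ (l - d.card)) :
    ((F.card : ℝ) / Q ^ (l - b.card)) /
        ((F.card : ℝ) / Q ^ (l - b.card) + (((1 + lam : ℕ) : ℝ) ^ (l - b.card)
          - (lam : ℝ) ^ (l - b.card)))
      ≤ avg (fun η : E → Fin Q => ind (∃ a ∈ F, (a : Set E) ⊆ (b : Set E) ∪ layer η)) :=
  SecondAux.second_moment_aux hQ (avg_contain hQ) F b l lam hF hne hdeg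

end Layer

end FewNeg
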