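import Pool.Agent.Lib.MP_678664_lc_FN.Basic
import Pool.Agent.Lib.MP_678664_lc_FN.Layer

/-! Module S: the planted sets are spread, and few random layers contain no planted set. -/

open Finset

namespace FewNeg

/-- Number of assignments with prescribed values on `V`. -/
theorem card_agree {q u : ℕ} (V : Finset (Fin q)) (w0 : Fin q → Fin u) :
    (univ.filter fun w : Fin q → Fin u => ∀ i ∈ V, w i = w0 i).card = u ^ (q - V.card) := by
  classical
  have h : (univ.filter fun w : Fin q → Fin u => ∀ i ∈ V, w i = w0 i)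
      = Fintype.piFinset (fun i => if i ∈ V then {w0 i} else univ) := by
    ext w
    simp only [mem_filter, mem_univ, true_and, Fintype.mem_piFinset]
    constructor
    · intro h i
      by_cases hi : i ∈ V
      · simp [hi, h i hi]
      · simp [hi]
    · intro h i hi
      have := h i
      simpa [hi] using this
  rw [h, Fintype.card_piFinset]
  have h2 : ∀ i : Fin q, (if i ∈ V then ({w0 i} : Finset (Fin u)) else univ).card =
      if i ∈ V then 1 else u := by
    intro i
    split_ifs <;> simp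
  rw [Finset.prod_congr rfl (fun i _ => h2 i), Finset.prod_ite, Finset.prod_const,
    Finset.prod_const, one_pow, one_mul]
  congr 1
  have : (univ.filter fun i : Fin q => ¬ i ∈ V) = univ \ V := by
    ext; simp
  rw [this, Finset.card_sdiff_of_subset (subset_univ V)]
  simp

theorem spread_Yw {q D u : ℕ} (hu : 0 < u) (hD : 3 ≤ D) (φ : Fin (q + 1) → Fin D → Fin q) {r : ℕ}
    (hφ : Expands φ r) :
    Spread (fun w : Fin q → Fin u => Yw φ w) (u ^ (D - 3) * u) r := by
  classical
  intro a ha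
  have hu' : (1 : ℝ) ≤ u := by exact_mod_cast hu
  have hu0 : (0 : ℝ) < u := by linarith
  have hrhs : 0 ≤ (1 / ((u ^ (D - 3) * u : ℕ) : ℝ)) ^ a.card := by positivity
  by_cases hex : ∃ w0 : Fin q → Fin u, (a : Set (El q D u)) ⊆ Yw φ w0
  swap
  · have : (fun w : Fin q → Fin u => ind ((a : Set (El q D u)) ⊆ Yw φ w)) = fun _ => 0 := by
      funext w
      exact ind_false fun h => hex ⟨w, h⟩
    rw [this]
    have h0 : avg (fun _ : Fin q → Fin u => (0 : ℝ)) = 0 := by unfold avg; simp
    rw [h0]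
    exact hrhs
  obtain ⟨w0, hw0⟩ := hex
  set V := vars φ (a.image Prod.fst) with hV
  have hcardJ : (a.image Prod.fst).card = a.card := by
    apply Finset.card_image_of_injOn
    intro x hx y hy hxy
    have h1 : x.2 = w0 ∘ φ x.1 := hw0 hx
    have h2 : y.2 = w0 ∘ φ y.1 := hw0 hy
    apply Prod.ext hxy
    rw [h1, h2, hxy]
  have hVc : (D - 2) * a.card ≤ V.card := by
    have := hφ (a.image Prod.fst) (by rw [hcardJ]; exact ha)
    rwa [hcardJ] at this
  have hVq : V.card ≤ q := by
    have := V.card_le_univ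
    simpa using this
  have hagree : ∀ w : Fin q → Fin u, (a : Set (El q D u)) ⊆ Yw φ w → ∀ i ∈ V, w i = w0 i := by
    intro w hw i hi
    rw [hV, vars, Finset.mem_biUnion] at hi
    obtain ⟨j, hj, hi⟩ := hi
    obtain ⟨e, he, rfl⟩ := Finset.mem_image.1 hj
    obtain ⟨s, _, rfl⟩ := Finset.mem_image.1 hi
    have h1 : e.2 = w ∘ φ e.1 := hw he
    have h2 : e.2 = w0 ∘ φ e.1 := hw0 he
    have h3 := congrFun (h1.symm.trans h2) s
    exact h3
  have hsum : ∑ w : Fin q → Fin u, ind ((a : Set (El q D u)) ⊆ Yw φ w) ≤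
      ((u ^ (q - V.card) : ℕ) : ℝ) := by
    rw [← card_agree V w0]
    calc ∑ w : Fin q → Fin u, ind ((a : Set (El q D u)) ⊆ Yw φ w)
        ≤ ∑ w : Fin q → Fin u, (if ∀ i ∈ V, w i = w0 i then (1 : ℝ) else 0) := by
          refine Finset.sum_le_sum fun w _ => ?_
          by_cases hw : (a : Set (El q D u)) ⊆ Yw φ w
          · rw [ind_true hw, if_pos (hagree w hw)]
          · rw [ind_false hw]
            split_ifs <;> norm_num
      _ = _ := by
          rw [Finset.sum_boole]
  have hfin : avg (fun w : Fin q → Fin u => ind ((a : Set (El q D u)) ⊆ Yw φ w)) ≤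
      1 / (u : ℝ) ^ V.card := by
    unfold avg
    have hc : (Fintype.card (Fin q → Fin u) : ℝ) = (u : ℝ) ^ q := by simp
    rw [hc, div_le_div_iff₀ (by positivity) (by positivity), one_mul]
    calc (∑ w : Fin q → Fin u, ind ((a : Set (El q D u)) ⊆ Yw φ w)) * (u : ℝ) ^ V.card
        ≤ ((u ^ (q - V.card) : ℕ) : ℝ) * (u : ℝ) ^ V.card := by gcongr
      _ = (u : ℝ) ^ q := by
          rw [Nat.cast_pow, ← pow_add, Nat.sub_add_cancel hVq]
  refine hfin.trans ?_
  have h5 : (1 / ((u ^ (D - 3) * u : ℕ) : ℝ)) ^ a.card = 1 / (u : ℝ) ^ ((D - 2) * a.card) := by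
    have h6 : u ^ (D - 3) * u = u ^ (D - 2) := by
      rw [← pow_succ]
      congr 1
      omega
    rw [h6, Nat.cast_pow, one_div_pow, ← pow_mul]
  rw [h5]
  apply one_div_le_one_div_of_le (by positivity)
  exact pow_le_pow_right₀ hu' hVc

theorem unsat_bound {q D u Q : ℕ} (hQ : 0 < Q) (φ : Fin (q + 1) → Fin D → Fin q) (N : ℕ) :
    (T Q)^[N] (fun S : Set (El q D u) => ind (∃ w, Yw φ w ⊆ S)) ∅
      ≤ (u : ℝ) ^ q * ((N : ℝ) / Q) ^ (q + 1) := by
  classical
  have h1 : ∀ S : Set (El q D u), ind (∃ w, Yw φ w ⊆ S) ≤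
      ∑ w ∈ (univ : Finset (Fin q → Fin u)), ind (Yw φ w ⊆ S) := by
    intro S
    refine le_trans (ind_mono ?_) (ind_exists_le univ fun w => Yw φ w ⊆ S)
    rintro ⟨w, hw⟩
    exact ⟨w, Finset.mem_univ _, hw⟩
  refine (T_iter_mono' h1 N ∅).trans ?_
  rw [T_iter_sum univ (fun w S => ind (Yw φ w ⊆ S)) N]
  have h2 : ∀ w : Fin q → Fin u, (T Q)^[N] (fun S => ind (Yw φ w ⊆ S)) ∅ ≤
      ((N : ℝ) / Q) ^ (q + 1) := by
    intro w
    let a : Finset (El q D u) := univ.image fun j => (j, w ∘ φ j)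
    have ha : (a : Set (El q D u)) = Yw φ w := by
      ext e
      simp only [a, Finset.coe_image, Finset.coe_univ, Set.image_univ, Set.mem_range]
      constructor
      · rintro ⟨j, rfl⟩
        rfl
      · intro he
        exact ⟨e.1, Prod.ext rfl (Eq.symm he)⟩
    have hc : a.card = q + 1 := by
      rw [Finset.card_image_of_injective _ (fun j j' h => (Prod.ext_iff.1 h).1)]
      simp
    have h3 := T_iter_contain hQ a N
    rw [ha, hc] at h3
    exact h3
  refine (Finset.sum_le_sum fun w _ => h2 w).trans ?_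
  rw [Finset.sum_const, Finset.card_univ, nsmul_eq_mul]
  simp

end FewNeg
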