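import Pool.Agent.Lib.MP_678664_lc_FN.Defs

/-!
# Expanding constraint systems with `D` slots (union bound)

`φ j s` is the variable at slot `s` of constraint `j`.
-/

open Finset

namespace FewNeg

namespace ExpanderD

/-- Number of maps with all slots of the constraints of `T` in `S`. -/
theorem card_maps {q m D : ℕ} (T : Finset (Fin m)) (S : Finset (Fin q)) :
    (univ.filter fun φ : Fin m → Fin D → Fin q => ∀ j ∈ T, ∀ s, φ j s ∈ S).card
      = (S.card ^ D) ^ T.card * (q ^ D) ^ (m - T.card) := by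
  classical
  have h : (univ.filter fun φ : Fin m → Fin D → Fin q => ∀ j ∈ T, ∀ s, φ j s ∈ S)
      = Fintype.piFinset (fun j => if j ∈ T then Fintype.piFinset (fun _ : Fin D => S)
          else univ) := by
    ext φ
    simp only [mem_filter, mem_univ, true_and, Fintype.mem_piFinset]
    constructor
    · intro h j
      by_cases hj : j ∈ T
      · simp only [hj, if_true, Fintype.mem_piFinset]
        exact h j hj
      · simp [hj]
    · intro h j hj s
      have := h j
      simp only [hj, if_true, Fintype.mem_piFinset] at this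
      exact this s
  rw [h, Fintype.card_piFinset]
  have h2 : ∀ j : Fin m, (if j ∈ T then Fintype.piFinset (fun _ : Fin D => S)
      else (univ : Finset (Fin D → Fin q))).card = if j ∈ T then S.card ^ D else q ^ D := by
    intro j
    split_ifs
    · simp
    · simp
  rw [Finset.prod_congr rfl (fun j _ => h2 j)]
  rw [Finset.prod_ite, Finset.prod_const, Finset.prod_const]
  congr 2
  · rw [Finset.filter_mem_eq_inter, Finset.univ_inter]
  · have : (univ.filter fun j : Fin m => ¬ j ∈ T) = univ \ T := by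
      ext; simp
    rw [this, Finset.card_sdiff_of_subset (subset_univ T)]
    simp

theorem pow_self_le (t : ℕ) : (t : ℝ) ^ t ≤ 3 ^ t * (t.factorial : ℝ) := by
  have h := Real.pow_div_factorial_le_exp (t : ℝ) (by positivity) t
  have h3 : Real.exp (t : ℝ) ≤ 3 ^ t := by
    have : Real.exp (t : ℝ) = Real.exp 1 ^ t := by
      rw [← Real.exp_nat_mul]; simp
    rw [this]
    exact pow_le_pow_left₀ (Real.exp_pos _).le (by linarith [Real.exp_one_lt_d9]) t
  have hf : (0 : ℝ) < (t.factorial : ℝ) := by exact_mod_cast t.factorial_pos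
  calc (t : ℝ) ^ t = (t : ℝ) ^ t / (t.factorial : ℝ) * (t.factorial : ℝ) := by
        field_simp
    _ ≤ 3 ^ t * (t.factorial : ℝ) := by
        gcongr
        exact h.trans h3

theorem choose_le (n t : ℕ) (ht : 0 < t) : (n.choose t : ℝ) ≤ (3 * n / t) ^ t := by
  have h := Nat.choose_le_pow_div (α := ℝ) t n
  have hf : (0 : ℝ) < (t.factorial : ℝ) := by exact_mod_cast t.factorial_pos
  have ht' : (0 : ℝ) < (t : ℝ) ^ t := by positivity
  refine h.trans ?_
  rw [div_pow, mul_pow, div_le_div_iff₀ hf ht']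
  have := pow_self_le t
  have hn : (0 : ℝ) ≤ (n : ℝ) ^ t := by positivity
  nlinarith [mul_le_mul_of_nonneg_left this hn]

/-- The constant: sets of at most `q / gam D` constraints expand. -/
def gam (D : ℕ) : ℕ := 4 * 3 ^ (D - 1) * (D - 2) ^ 2

theorem gam_pos {D : ℕ} (hD : 3 ≤ D) : 0 < gam D := by
  unfold gam
  have : 0 < D - 2 := by omega
  positivity

theorem term_le {D q t : ℕ} (hD : 3 ≤ D) (hq : 0 < q) (ht : 0 < t) (htq : gam D * t ≤ q) :
    ((q + 1).choose t : ℝ) * (q.choose ((D - 2) * t) : ℝ) * ((((D - 2) * t : ℕ) : ℝ) ^ D) ^ t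
      ≤ (1 / 2) ^ t * ((q : ℝ) ^ D) ^ t := by
  obtain ⟨e, rfl⟩ : ∃ e, D = e + 3 := ⟨D - 3, by omega⟩
  have hsub : e + 3 - 2 = e + 1 := by omega
  have hsub2 : e + 3 - 1 = e + 2 := by omega
  rw [hsub]
  unfold gam at htq
  rw [hsub, hsub2] at htq
  have h1 := choose_le (q + 1) t ht
  have h2 := choose_le q ((e + 1) * t) (by positivity)
  have hq' : (1 : ℝ) ≤ q := by exact_mod_cast hq
  have ht' : (0 : ℝ) < t := by exact_mod_cast ht
  have he : (0 : ℝ) < (e : ℝ) + 1 := by positivity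
  have htq' : 4 * 3 ^ (e + 2) * ((e : ℝ) + 1) ^ 2 * t ≤ q := by exact_mod_cast htq
  have e2 : (3 * (q : ℝ) / (((e + 1) * t : ℕ) : ℝ)) ^ ((e + 1) * t)
      = ((3 * (q : ℝ) / (((e : ℝ) + 1) * t)) ^ (e + 1)) ^ t := by
    rw [pow_mul]
    congr 3
    push_cast
    ring
  rw [e2] at h2
  calc ((q + 1).choose t : ℝ) * (q.choose ((e + 1) * t) : ℝ)
        * ((((e + 1) * t : ℕ) : ℝ) ^ (e + 3)) ^ t
      ≤ (3 * ((q + 1 : ℕ) : ℝ) / t) ^ t * ((3 * (q : ℝ) / (((e : ℝ) + 1) * t)) ^ (e + 1)) ^ t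
          * ((((e + 1) * t : ℕ) : ℝ) ^ (e + 3)) ^ t := by gcongr
    _ = (3 * ((q + 1 : ℕ) : ℝ) / t * (3 * (q : ℝ) / (((e : ℝ) + 1) * t)) ^ (e + 1)
          * (((e + 1) * t : ℕ) : ℝ) ^ (e + 3)) ^ t := by
        rw [mul_pow, mul_pow]
    _ ≤ (1 / 2 * (q : ℝ) ^ (e + 3)) ^ t := by
        apply pow_le_pow_left₀ (by positivity)
        have : 3 * ((q + 1 : ℕ) : ℝ) / t * (3 * (q : ℝ) / (((e : ℝ) + 1) * t)) ^ (e + 1)
            * (((e + 1) * t : ℕ) : ℝ) ^ (e + 3)
            = 3 ^ (e + 2) * ((e : ℝ) + 1) ^ 2 * t * ((q : ℝ) + 1) * q ^ (e + 1) := by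
          push_cast
          rw [div_pow, mul_pow, mul_pow, mul_pow]
          field_simp
          ring
        rw [this]
        have h3 : (q : ℝ) + 1 ≤ 2 * q := by linarith
        calc 3 ^ (e + 2) * ((e : ℝ) + 1) ^ 2 * t * ((q : ℝ) + 1) * q ^ (e + 1)
            ≤ 3 ^ (e + 2) * ((e : ℝ) + 1) ^ 2 * t * (2 * q) * q ^ (e + 1) := by gcongr
          _ = (4 * 3 ^ (e + 2) * ((e : ℝ) + 1) ^ 2 * t) * (1 / 2 * (q : ℝ) ^ (e + 2)) := by ring
          _ ≤ q * (1 / 2 * (q : ℝ) ^ (e + 2)) := by gcongr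
          _ = 1 / 2 * (q : ℝ) ^ (e + 3) := by ring
    _ = (1 / 2) ^ t * ((q : ℝ) ^ (e + 3)) ^ t := by rw [mul_pow]

/-- For `D ≥ 3` and `q ≥ 1` there are `q + 1` constraints with `D` slots over `q` variables such
that any `t ≤ q / gam D` of them have at least `(D - 2) t` variables. -/
theorem exists_expander {D : ℕ} (hD : 3 ≤ D) {q : ℕ} (hq0 : 0 < q) :
    ∃ φ : Fin (q + 1) → Fin D → Fin q, ∀ T : Finset (Fin (q + 1)), T.card ≤ q / gam D →
      (D - 2) * T.card ≤ (T.biUnion fun j => univ.image (φ j)).card := by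
  classical
  by_contra hcon
  push Not at hcon
  set r := q / gam D with hr
  have hg := gam_pos hD
  have hgD : D - 2 ≤ gam D := by
    unfold gam
    have h1 : 0 < D - 2 := by omega
    have h2 : 0 < 4 * 3 ^ (D - 1) := by positivity
    calc D - 2 ≤ (D - 2) ^ 2 := by nlinarith
      _ ≤ 4 * 3 ^ (D - 1) * (D - 2) ^ 2 := by nlinarith [sq_nonneg (D - 2)]
  have hrt : ∀ t, t ≤ r → gam D * t ≤ q := by
    intro t ht
    calc gam D * t ≤ gam D * r := by gcongr
      _ ≤ q := Nat.mul_div_le q (gam D)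
  -- the union bound
  set A : Finset (Fin (q + 1)) → Finset (Fin q) → Finset (Fin (q + 1) → Fin D → Fin q) :=
    fun T S => univ.filter fun φ => ∀ j ∈ T, ∀ s, φ j s ∈ S with hA
  have hcover : (univ : Finset (Fin (q + 1) → Fin D → Fin q)) ⊆
      (Finset.Icc 1 r).biUnion fun t => (powersetCard t univ).biUnion fun T =>
        (powersetCard ((D - 2) * t) univ).biUnion fun S => A T S := by
    intro φ _
    obtain ⟨T, hT, hTc⟩ := hcon φ
    have hT0 : 0 < T.card := by
      rcases Nat.eq_zero_or_pos T.card with h0 | h0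
      · rw [h0] at hTc; omega
      · exact h0
    have h3q : (D - 2) * T.card ≤ q := by
      calc (D - 2) * T.card ≤ gam D * T.card := by gcongr
        _ ≤ q := hrt _ hT
    obtain ⟨S, hS1, hS2⟩ := Finset.exists_superset_card_eq
      (s := T.biUnion fun j => univ.image (φ j))
      (n := (D - 2) * T.card) hTc.le (by simpa using h3q)
    simp only [mem_biUnion]
    refine ⟨T.card, Finset.mem_Icc.2 ⟨hT0, hT⟩, T, ?_, S, ?_, ?_⟩
    · simp [mem_powersetCard]
    · simp [mem_powersetCard, hS2]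
    · simp only [hA, mem_filter, mem_univ, true_and]
      intro j hj s
      apply hS1
      simp only [mem_biUnion]
      exact ⟨j, hj, by simp⟩
  have hcard := Finset.card_le_card hcover
  have h1 : (univ : Finset (Fin (q + 1) → Fin D → Fin q)).card = (q ^ D) ^ (q + 1) := by
    simp
  have h2 : ((Finset.Icc 1 r).biUnion fun t => (powersetCard t
      (univ : Finset (Fin (q + 1)))).biUnion fun T =>
        (powersetCard ((D - 2) * t) (univ : Finset (Fin q))).biUnion fun S => A T S).card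
      ≤ ∑ t ∈ Finset.Icc 1 r, (q + 1).choose t * (q.choose ((D - 2) * t) *
          ((((D - 2) * t) ^ D) ^ t * (q ^ D) ^ (q + 1 - t))) := by
    refine Finset.card_biUnion_le.trans (Finset.sum_le_sum fun t _ => ?_)
    refine (Finset.card_biUnion_le_card_mul _ _ (q.choose ((D - 2) * t) *
          ((((D - 2) * t) ^ D) ^ t * (q ^ D) ^ (q + 1 - t))) ?_).trans ?_
    · intro T hT
      refine (Finset.card_biUnion_le_card_mul _ _
          ((((D - 2) * t) ^ D) ^ t * (q ^ D) ^ (q + 1 - t)) ?_).trans ?_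
      · intro S hS
        rw [hA]
        simp only
        rw [card_maps, (mem_powersetCard.1 hT).2, (mem_powersetCard.1 hS).2]
      · simp
    · simp
  have h3 : ((q ^ D : ℕ) ^ (q + 1) : ℝ) ≤ ∑ t ∈ Finset.Icc 1 r, (1 / 2 : ℝ) ^ t
      * ((q ^ D : ℕ) : ℝ) ^ (q + 1) := by
    rw [h1] at hcard
    have h4 : (((q ^ D) ^ (q + 1) : ℕ) : ℝ) ≤ ((∑ t ∈ Finset.Icc 1 r, (q + 1).choose t *
        (q.choose ((D - 2) * t) * ((((D - 2) * t) ^ D) ^ t * (q ^ D) ^ (q + 1 - t))) : ℕ) :
          ℝ) := by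
      exact_mod_cast hcard.trans h2
    rw [Nat.cast_sum] at h4
    rw [Nat.cast_pow] at h4
    refine h4.trans (Finset.sum_le_sum fun t ht => ?_)
    obtain ⟨ht1, ht2⟩ := Finset.mem_Icc.1 ht
    have htq := hrt t ht2
    have hle : t ≤ q + 1 := by
      have : t ≤ gam D * t := Nat.le_mul_of_pos_left t hg
      omega
    have h5 := term_le hD hq0 (by omega : 0 < t) htq
    have e1 : ((((q + 1).choose t * (q.choose ((D - 2) * t) * ((((D - 2) * t) ^ D) ^ t
          * (q ^ D) ^ (q + 1 - t))) : ℕ)) : ℝ)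
        = (((q + 1).choose t : ℝ) * (q.choose ((D - 2) * t) : ℝ)
          * ((((D - 2) * t : ℕ) : ℝ) ^ D) ^ t) * ((q : ℝ) ^ D) ^ (q + 1 - t) := by
      rw [Nat.cast_mul, Nat.cast_mul, Nat.cast_mul, Nat.cast_pow, Nat.cast_pow, Nat.cast_pow,
        Nat.cast_pow]
      ring
    rw [e1]
    calc (((q + 1).choose t : ℝ) * (q.choose ((D - 2) * t) : ℝ)
          * ((((D - 2) * t : ℕ) : ℝ) ^ D) ^ t) * ((q : ℝ) ^ D) ^ (q + 1 - t)
        ≤ ((1 / 2) ^ t * ((q : ℝ) ^ D) ^ t) * ((q : ℝ) ^ D) ^ (q + 1 - t) := by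
          gcongr
      _ = (1 / 2) ^ t * ((q ^ D : ℕ) : ℝ) ^ (q + 1) := by
          rw [mul_assoc, ← pow_add, Nat.cast_pow]
          congr 2
          omega
  have h6 : ∑ t ∈ Finset.Icc 1 r, (1 / 2 : ℝ) ^ t < 1 := by
    have : ∀ r : ℕ, ∑ t ∈ Finset.Icc 1 r, (1 / 2 : ℝ) ^ t = 1 - (1 / 2) ^ r := by
      intro r
      induction r with
      | zero => simp
      | succ r ih =>
        rw [Finset.sum_Icc_succ_top (by omega), ih, pow_succ]
        ring
    rw [this]
    have : (0 : ℝ) < (1 / 2) ^ r := by positivity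
    linarith
  rw [← Finset.sum_mul] at h3
  have h7 : (0 : ℝ) < ((q ^ D : ℕ) : ℝ) ^ (q + 1) := by positivity
  nlinarith

end ExpanderD

/-- Existence of expanding systems of constraints. -/
theorem exists_expander (D : ℕ) (hD : 3 ≤ D) : ∃ K : ℕ, 0 < K ∧ ∀ q, 0 < q →
    ∃ φ : Fin (q + 1) → Fin D → Fin q, Expands φ (q / K) := by
  refine ⟨ExpanderD.gam D, ExpanderD.gam_pos hD, fun q hq => ?_⟩
  obtain ⟨φ, hφ⟩ := ExpanderD.exists_expander hD hq
  exact ⟨φ, fun S hS => hφ S hS⟩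

end FewNeg
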