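import Pool.Agent.Lib.MP_678664_lc_FN.Defs

/-! Module G: the constraint system is a restriction of the clique function. -/

open Finset

namespace FewNeg

namespace GraphAux

/-- Slot number `l` of the half `s`. -/
def half {d : ℕ} (s : Bool) (l : Fin d) : Fin (2 * d) :=
  if s then ⟨d + l, by have := l.2; omega⟩ else ⟨l, by have := l.2; omega⟩

theorem exists_half {d : ℕ} (i : Fin (2 * d)) : ∃ (s : Bool) (l : Fin d), half s l = i := by
  have hi := i.2
  by_cases h : (i : ℕ) < d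
  · exact ⟨false, ⟨i, h⟩, by simp [half]⟩
  · refine ⟨true, ⟨i - d, by omega⟩, ?_⟩
    apply Fin.ext
    simp only [half, if_true]
    omega

/-- The vertices: a class `(j, s)` with a tuple of values for the half `s`, or a universal
vertex. -/
abbrev Vert (q d u e : ℕ) := (Fin (q + 1) × Bool × (Fin d → Fin u)) ⊕ Fin e

variable {q d u e : ℕ}

/-- The vertex `a` carries the values of `w`. -/
def Fits (φ : Fin (q + 1) → Fin (2 * d) → Fin q) (w : Fin q → Fin u)
    (a : Fin (q + 1) × Bool × (Fin d → Fin u)) : Prop :=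
  ∀ l, a.2.2 l = w (φ a.1 (half a.2.1 l))

/-- Adjacency of two vertices which are not universal. -/
def Adj₀ (φ : Fin (q + 1) → Fin (2 * d) → Fin q) (x : Set (El q (2 * d) u))
    (a b : Fin (q + 1) × Bool × (Fin d → Fin u)) : Prop :=
  ¬ (a.1 = b.1 ∧ a.2.1 = b.2.1) ∧ ∃ w : Fin q → Fin u, Fits φ w a ∧ Fits φ w b ∧
    (a.1 = b.1 → ((a.1, w ∘ φ a.1) : El q (2 * d) u) ∈ x)

/-- Adjacency. -/
def Adj₁ (φ : Fin (q + 1) → Fin (2 * d) → Fin q) (x : Set (El q (2 * d) u)) :
    Vert q d u e → Vert q d u e → Prop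
  | .inl a, .inl b => Adj₀ φ x a b
  | .inl _, .inr _ => True
  | .inr _, .inl _ => True
  | .inr i, .inr j => i ≠ j

theorem Adj₀.symm {φ : Fin (q + 1) → Fin (2 * d) → Fin q} {x : Set (El q (2 * d) u)}
    {a b : Fin (q + 1) × Bool × (Fin d → Fin u)} (h : Adj₀ φ x a b) : Adj₀ φ x b a := by
  obtain ⟨h1, w, h2, h3, h4⟩ := h
  refine ⟨fun h => h1 ⟨h.1.symm, h.2.symm⟩, w, h3, h2, fun hj => ?_⟩
  have := h4 hj.symm
  rwa [← hj] at this

/-- The graph on `Vert`. -/
def Gr (φ : Fin (q + 1) → Fin (2 * d) → Fin q) (x : Set (El q (2 * d) u)) :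
    SimpleGraph (Vert q d u e) where
  Adj := Adj₁ φ x
  symm := ⟨by
    rintro (a | i) (b | j) h
    · exact Adj₀.symm h
    · trivial
    · trivial
    · exact fun hij => h hij.symm⟩
  loopless := ⟨by
    rintro (a | i) h
    · exact h.1 ⟨rfl, rfl⟩
    · exact h rfl⟩

/-- Two assignments that fit the two halves of the same position agree on this position. -/
theorem comp_eq {φ : Fin (q + 1) → Fin (2 * d) → Fin q} {w w' : Fin q → Fin u}
    {a b : Fin (q + 1) × Bool × (Fin d → Fin u)} (hj : a.1 = b.1) (hs : a.2.1 ≠ b.2.1)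
    (ha : Fits φ w a) (hb : Fits φ w b) (ha' : Fits φ w' a) (hb' : Fits φ w' b) :
    w ∘ φ a.1 = w' ∘ φ a.1 := by
  funext i
  obtain ⟨s, l, rfl⟩ := exists_half i
  simp only [Function.comp]
  by_cases h : s = a.2.1
  · subst h
    rw [← ha l, ← ha' l]
  · have h' : s = b.2.1 := by
      cases s <;> cases hs1 : a.2.1 <;> cases hs2 : b.2.1 <;> simp_all
    subst h'
    rw [hj, ← hb l, ← hb' l]

theorem isLit₁ (φ : Fin (q + 1) → Fin (2 * d) → Fin q) (a b : Vert q d u e) :
    (∀ x, (Gr φ x).Adj a b) ∨ (∀ x, ¬ (Gr φ x).Adj a b) ∨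
      ∃ e : El q (2 * d) u, ∀ x, (Gr φ x).Adj a b ↔ e ∈ x := by
  rcases a with a | i <;> rcases b with b | j
  · by_cases h1 : a.1 = b.1 ∧ a.2.1 = b.2.1
    · exact Or.inr (Or.inl fun x h => h.1 h1)
    · by_cases h2 : ∃ w : Fin q → Fin u, Fits φ w a ∧ Fits φ w b
      · obtain ⟨w, ha, hb⟩ := h2
        by_cases hj : a.1 = b.1
        · refine Or.inr (Or.inr ⟨(a.1, w ∘ φ a.1), fun x => ⟨?_, fun h => ⟨h1, w, ha, hb, fun _ => h⟩⟩⟩)
          rintro ⟨-, w', ha', hb', h⟩
          rw [comp_eq hj (fun hs => h1 ⟨hj, hs⟩) ha hb ha' hb']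
          exact h hj
        · exact Or.inl fun x => ⟨h1, w, ha, hb, fun h => absurd h hj⟩
      · refine Or.inr (Or.inl fun x h => ?_)
        obtain ⟨-, w, ha, hb, -⟩ := h
        exact h2 ⟨w, ha, hb⟩
  · exact Or.inl fun x => trivial
  · exact Or.inl fun x => trivial
  · by_cases hij : i = j
    · exact Or.inr (Or.inl fun x h => h hij)
    · exact Or.inl fun x => hij

theorem isLit_map {n : ℕ} (φ : Fin (q + 1) → Fin (2 * d) → Fin q) (f : Vert q d u e ↪ Fin n) :
    IsLit (fun (x : Set (El q (2 * d) u)) (p : Fin n × Fin n) =>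
      ((Gr φ x).map f).Adj p.1 p.2) := by
  intro p
  by_cases h : ∃ a b, f a = p.1 ∧ f b = p.2
  · obtain ⟨a, b, ha, hb⟩ := h
    have key : ∀ x, ((Gr φ x).map f).Adj p.1 p.2 ↔ (Gr φ x).Adj a b := by
      intro x
      rw [← ha, ← hb]
      exact SimpleGraph.map_adj_apply
    simp only [key]
    exact isLit₁ φ a b
  · refine Or.inr (Or.inl fun x hx => h ?_)
    change ((Gr φ x).map f).Adj p.1 p.2 at hx
    rw [SimpleGraph.map_adj] at hx
    obtain ⟨a, b, -, ha, hb⟩ := hx
    exact ⟨a, b, ha, hb⟩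

/-- The class of a vertex. -/
def cls : Vert q d u e → (Fin (q + 1) × Bool) ⊕ Fin e
  | .inl a => .inl (a.1, a.2.1)
  | .inr i => .inr i

theorem cls_ne {φ : Fin (q + 1) → Fin (2 * d) → Fin q} {x : Set (El q (2 * d) u)}
    {a b : Vert q d u e} (h : (Gr φ x).Adj a b) : cls a ≠ cls b := by
  rcases a with a | i <;> rcases b with b | j
  · intro hc
    simp only [cls, Sum.inl.injEq, Prod.mk.injEq] at hc
    exact h.1 hc
  · simp [cls]
  · simp [cls]
  · intro hc
    simp only [cls, Sum.inr.injEq] at hc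
    exact h hc

theorem card_cls : Fintype.card ((Fin (q + 1) × Bool) ⊕ Fin e) = 2 * (q + 1) + e := by
  simp [Fintype.card_sum, Fintype.card_prod]
  ring

/-- The vertex of class `c` given by `w`. -/
def vert (φ : Fin (q + 1) → Fin (2 * d) → Fin q) (w : Fin q → Fin u) :
    (Fin (q + 1) × Bool) ⊕ Fin e → Vert q d u e
  | .inl c => .inl (c.1, c.2, fun l => w (φ c.1 (half c.2 l)))
  | .inr i => .inr i

theorem cls_vert (φ : Fin (q + 1) → Fin (2 * d) → Fin q) (w : Fin q → Fin u)
    (c : (Fin (q + 1) × Bool) ⊕ Fin e) : cls (vert φ w c) = c := by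
  rcases c with c | i <;> rfl

theorem exists_clique {φ : Fin (q + 1) → Fin (2 * d) → Fin q} {x : Set (El q (2 * d) u)}
    {w : Fin q → Fin u} (h : Yw φ w ⊆ x) :
    ¬ (Gr (e := e) φ x).CliqueFree (2 * (q + 1) + e) := by
  classical
  have hinj : Function.Injective (vert (e := e) φ w) :=
    Function.LeftInverse.injective (cls_vert φ w)
  intro hfree
  refine hfree (univ.map ⟨vert (e := e) φ w, hinj⟩) ⟨?_, ?_⟩
  · intro a ha b hb hab
    simp only [coe_map, Function.Embedding.coeFn_mk, coe_univ, Set.image_univ,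
      Set.mem_range] at ha hb
    obtain ⟨c, rfl⟩ := ha
    obtain ⟨c', rfl⟩ := hb
    have hcc : c ≠ c' := fun hc => hab (by rw [hc])
    rcases c with c | i <;> rcases c' with c' | j
    · refine ⟨fun hc => hcc ?_, w, fun l => rfl, fun l => rfl, fun _ => h ?_⟩
      · exact congrArg Sum.inl (Prod.ext (show c.1 = c'.1 from hc.1) (show c.2 = c'.2 from hc.2))
      · simp [Yw]
    · trivial
    · trivial
    · exact fun hij => hcc (by rw [hij])
  · rw [card_map, card_univ, card_cls]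

theorem of_clique {φ : Fin (q + 1) → Fin (2 * d) → Fin q} {x : Set (El q (2 * d) u)}
    (hu : 0 < u) (h : ¬ (Gr (e := e) φ x).CliqueFree (2 * (q + 1) + e)) :
    ∃ w, Yw φ w ⊆ x := by
  classical
  unfold SimpleGraph.CliqueFree at h
  push Not at h
  obtain ⟨K, hK, hcard⟩ := h
  have hadj : ∀ a ∈ K, ∀ b ∈ K, a ≠ b → (Gr (e := e) φ x).Adj a b :=
    fun a ha b hb hab => hK (mem_coe.2 ha) (mem_coe.2 hb) hab
  have hinj : Set.InjOn (cls (q := q) (d := d) (u := u) (e := e)) K := by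
    intro a ha b hb hab
    by_contra hne
    exact cls_ne (hadj a ha b hb hne) hab
  have himg : K.image cls = univ := by
    apply eq_univ_of_card
    rw [card_image_of_injOn hinj, hcard, card_cls]
  have hex : ∀ c : Fin (q + 1) × Bool, ∃ v : Fin d → Fin u,
      (Sum.inl (c.1, c.2, v) : Vert q d u e) ∈ K := by
    intro c
    have : (Sum.inl c : (Fin (q + 1) × Bool) ⊕ Fin e) ∈ K.image cls := by rw [himg]; simp
    obtain ⟨a, ha, hac⟩ := mem_image.1 this
    rcases a with a | i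
    · simp only [cls, Sum.inl.injEq] at hac
      refine ⟨a.2.2, ?_⟩
      rw [← hac]
      exact ha
    · simp [cls] at hac
  choose V hV using hex
  have hpair : ∀ c c' : Fin (q + 1) × Bool, c ≠ c' →
      Adj₀ φ x (c.1, c.2, V c) (c'.1, c'.2, V c') := by
    intro c c' hcc
    refine hadj _ (hV c) _ (hV c') ?_
    intro heq
    apply hcc
    simp only [Sum.inl.injEq, Prod.mk.injEq] at heq
    exact Prod.ext heq.1 heq.2.1
  have hcons : ∀ c c' : Fin (q + 1) × Bool, ∀ l l' : Fin d,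
      φ c.1 (half c.2 l) = φ c'.1 (half c'.2 l') → V c l = V c' l' := by
    intro c c' l l' hll
    by_cases hcc : c = c'
    · subst hcc
      obtain ⟨-, w, hw, -, -⟩ := hpair c (c.1, !c.2) (by
        intro h
        have := congrArg Prod.snd h
        simp at this)
      have h1 := hw l
      have h2 := hw l'
      simp only at h1 h2
      rw [h1, h2, hll]
    · obtain ⟨-, w, hw, hw', -⟩ := hpair c c' hcc
      have h1 := hw l
      have h2 := hw' l'
      simp only at h1 h2
      rw [h1, h2, hll]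
  have hw : ∃ w : Fin q → Fin u, ∀ c : Fin (q + 1) × Bool, ∀ l : Fin d,
      V c l = w (φ c.1 (half c.2 l)) := by
    have : ∀ i : Fin q, ∃ z : Fin u, ∀ c : Fin (q + 1) × Bool, ∀ l : Fin d,
        φ c.1 (half c.2 l) = i → V c l = z := by
      intro i
      by_cases hi : ∃ c : Fin (q + 1) × Bool, ∃ l : Fin d, φ c.1 (half c.2 l) = i
      · obtain ⟨c, l, hcl⟩ := hi
        refine ⟨V c l, fun c' l' h' => hcons c' c l' l (h'.trans hcl.symm)⟩
      · push Not at hi
        exact ⟨⟨0, hu⟩, fun c l h' => absurd h' (hi c l)⟩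
    choose w hw using this
    exact ⟨w, fun c l => hw _ c l rfl⟩
  obtain ⟨w, hw⟩ := hw
  refine ⟨w, ?_⟩
  rintro ⟨j, t⟩ ht
  have ht' : t = w ∘ φ j := ht
  subst ht'
  obtain ⟨-, w', h1, h2, h3⟩ := hpair (j, false) (j, true) (by simp)
  have hc : w ∘ φ j = w' ∘ φ j :=
    comp_eq (φ := φ) (w := w) (w' := w') (a := (j, false, V (j, false)))
      (b := (j, true, V (j, true))) rfl (by simp) (fun l => hw (j, false) l)
      (fun l => hw (j, true) l) h1 h2
  rw [hc]
  exact h3 rfl

end GraphAux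

open GraphAux in
/-- The hard function is a restriction of clique: position `j` is an edge between the two halves
(`d` values each) of a tuple of `D = 2 * d` values. -/
theorem graph_embedding {n q d u e : ℕ} (hd : 0 < d) (hu : 0 < u)
    (hn : 2 * (q + 1) * u ^ d + e ≤ n) (φ : Fin (q + 1) → Fin (2 * d) → Fin q) :
    ∃ Γ : Set (El q (2 * d) u) → SimpleGraph (Fin n),
      IsLit (fun x (p : Fin n × Fin n) => (Γ x).Adj p.1 p.2) ∧
      (∀ x y, x ⊆ y → ∀ p : Fin n × Fin n, (Γ x).Adj p.1 p.2 → (Γ y).Adj p.1 p.2) ∧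
      ∀ x, ¬ (Γ x).CliqueFree (2 * (q + 1) + e) ↔ ∃ w, Yw φ w ⊆ x := by
  classical
  have hcard : Fintype.card (Vert q d u e) ≤ Fintype.card (Fin n) := by
    simp only [Fintype.card_sum, Fintype.card_prod, Fintype.card_fin, Fintype.card_bool,
      Fintype.card_pi, Finset.prod_const, Finset.card_univ]
    calc (q + 1) * (2 * u ^ d) + e = 2 * (q + 1) * u ^ d + e := by ring
      _ ≤ n := hn
  obtain ⟨f⟩ := Function.Embedding.nonempty_of_card_le hcard
  have hlit := isLit_map φ f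
  have : Nonempty (Vert q d u e) := ⟨Sum.inl (0, false, fun _ => ⟨0, hu⟩)⟩
  refine ⟨fun x => (Gr φ x).map f, hlit, ?_, ?_⟩
  · intro x y hxy p hp
    rcases hlit p with h | h | ⟨e, h⟩
    · exact h y
    · exact absurd hp (h x)
    · exact (h y).2 (hxy ((h x).1 hp))
  · intro x
    rw [SimpleGraph.cliqueFree_map_iff]
    exact ⟨of_clique hu, fun ⟨w, hw⟩ => exists_clique hw⟩

end FewNeg
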