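import Pool.Agent.Lib.MP_678664_lc_FN.Params
import Pool.Agent.Lib.MP_678664_lc_FN.Csp
import Pool.Agent.Lib.MP_678664_lc_FN.Graph
import Pool.Agent.Lib.MP_678664_lc_FN.Expander
import Pool.Agent.Lib.MP_678664_lc_FN.Approx

/-! Module M: choice of the parameters and the main theorem. -/

open Finset Filter

namespace FewNeg

namespace M

theorem spread_mono {E Z : Type} [Fintype Z] {Y : Z → Set E} {Qρ L L' : ℕ}
    (h : Spread Y Qρ L') (hL : L ≤ L') : Spread Y Qρ L :=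
  fun a ha => h a (ha.trans hL)

theorem card_El (q D u : ℕ) : Fintype.card (El q D u) = (q + 1) * u ^ D := by
  simp [El]

/-- The hard function is false with probability at least one half. -/
theorem unsat_half {q D u : ℕ} (hD : 6 ≤ D) (hu : 2 ≤ u)
    (φ : Fin (q + 1) → Fin D → Fin q) {i : ℕ} (hi : i < u ^ (D - 6)) :
    (T (u ^ (D - 3)))^[i * u] (fun S : Set (El q D u) => ind (∃ w, Yw φ w ⊆ S)) ∅ ≤ 1 / 2 := by
  have hu0 : 0 < u := by omega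
  refine (unsat_bound (Nat.pow_pos hu0) φ _).trans ?_
  have hu' : (2 : ℝ) ≤ u := by exact_mod_cast hu
  have hu1 : (0 : ℝ) < u := by linarith
  have h1 : (((i * u : ℕ) : ℝ) / ((u ^ (D - 3) : ℕ) : ℝ)) ≤ 1 / (u : ℝ) ^ 2 := by
    rw [div_le_div_iff₀ (by positivity) (by positivity), one_mul]
    have h2 : i * u * u ^ 2 ≤ u ^ (D - 3) := by
      calc i * u * u ^ 2 = i * u ^ 3 := by ring
        _ ≤ u ^ (D - 6) * u ^ 3 := Nat.mul_le_mul_right _ hi.le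
        _ = u ^ (D - 3) := by rw [← pow_add]; congr 1; omega
    exact_mod_cast h2
  calc (u : ℝ) ^ q * (((i * u : ℕ) : ℝ) / ((u ^ (D - 3) : ℕ) : ℝ)) ^ (q + 1)
      ≤ (u : ℝ) ^ q * (1 / (u : ℝ) ^ 2) ^ (q + 1) := by gcongr
    _ = 1 / (u : ℝ) ^ (q + 2) := by
        rw [one_div_pow, ← pow_mul, mul_one_div, div_eq_div_iff (by positivity) (by positivity)]
        rw [one_mul, ← pow_add]
        congr 1
        ring
    _ ≤ 1 / (2 : ℝ) ^ 1 := by
        refine one_div_le_one_div_of_le (by positivity) ?_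
        calc (2 : ℝ) ^ 1 ≤ (u : ℝ) ^ 1 := by rw [pow_one, pow_one]; exact hu'
          _ ≤ (u : ℝ) ^ (q + 2) := pow_le_pow_right₀ (by linarith) (by omega)
    _ = 1 / 2 := by norm_num

/-- The lower bound for fixed parameters. -/
theorem core {n q d u e c s t r : ℕ} (hd : 3 ≤ d) (hn : 2 * (q + 1) * u ^ d + e ≤ n)
    (φ : Fin (q + 1) → Fin (2 * d) → Fin q) (hφ : Expands φ r) (hr : 2 * c ≤ r) (hc : 1 ≤ c)
    (hu : 8 * (1 + 2 * c) ≤ u)
    (hC : HasCircuit n s t (fun G => ¬ G.CliqueFree (2 * (q + 1) + e))) :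
    ∃ t' ≤ t, (u : ℝ) ^ (2 * d - 6) / 2 ≤ (((t' + 1) * 2 ^ t' : ℕ) : ℝ) *
      (1 + (u : ℝ) ^ (2 * d - 6) * (s * err ((q + 1) * u ^ (2 * d)) u c u)) := by
  classical
  obtain ⟨C, hCt, o, ho, hCo⟩ := hC
  have hu0 : 0 < u := by omega
  obtain ⟨Γ, hlit, hmono, hcl⟩ := graph_embedding (by omega) hu0 hn φ
  refine ⟨C.numNot s, hCt, ?_⟩
  have hne : Nonempty (Fin q → Fin u) := ⟨fun _ => ⟨0, hu0⟩⟩
  have hval : ∀ S : Set (El q (2 * d) u),
      C.val (fun p : Fin n × Fin n => (Γ S).Adj p.1 p.2) o ↔ ∃ w, Yw φ w ⊆ S :=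
    fun S => (hCo (Γ S)).trans (hcl S)
  have hY := spread_mono (spread_Yw hu0 (show 3 ≤ 2 * d by omega) φ hφ) hr
  have key := neg_bound (Q := u ^ (2 * d - 3)) (R := u) (c := c) (ρ := u)
    (Nat.pow_pos hu0) hu0 hc hu hY hlit hmono C (m := u ^ (2 * d - 6)) ho
    (fun S w hS => (hval S).2 ⟨w, hS⟩)
    (by
      intro i hi
      have : (fun S : Set (El q (2 * d) u) =>
          ind (C.val ((fun x (p : Fin n × Fin n) => (Γ x).Adj p.1 p.2) S) o)) =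
          fun S => ind (∃ w, Yw φ w ⊆ S) := by
        funext S
        beta_reduce
        rw [hval S]
      rw [this]
      exact unsat_half (by omega) (by omega) φ hi)
  rw [card_El] at key
  push_cast at key ⊢
  exact key

end M

/-! ## Module M (parameters) -/

theorem main : ∀ ε : ℝ, 0 < ε → ∃ c : ℝ, 0 < c ∧ ∃ k₀ : ℕ, ∀ k ≥ k₀, ∃ n₀ : ℕ, ∀ n ≥ n₀,
    ∀ s t : ℕ, (t : ℝ) ≤ (2 - ε) * Real.logb 2 n →
      HasCircuit n s t (fun G => ¬ G.CliqueFree k) → (n : ℝ) ^ (c * k) ≤ s := by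
  intro ε hε
  obtain ⟨d, hd3, hdε⟩ : ∃ d : ℕ, 3 ≤ d ∧ 13 / ε ≤ d :=
    ⟨⌈13 / ε⌉₊ + 3, by omega, (Nat.le_ceil _).trans (by push_cast; linarith)⟩
  obtain ⟨K, hK, hexp⟩ := exists_expander (2 * d) (by omega)
  have hK' : (0 : ℝ) < K := by exact_mod_cast hK
  refine ⟨1 / (8 * (K : ℝ) * (d + 1)), by positivity, 8 * K * (2 * d + 2), fun k hk => ?_⟩
  -- parameters depending on `k`
  obtain ⟨q, hq⟩ : ∃ q, q = k / 2 - 1 := ⟨_, rfl⟩
  obtain ⟨e, he⟩ : ∃ e, e = k - 2 * (q + 1) := ⟨_, rfl⟩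
  obtain ⟨c, hc⟩ : ∃ c, c = q / K / 2 := ⟨_, rfl⟩
  have hk0 : 48 ≤ k := by
    calc 48 ≤ 8 * K * (2 * d + 2) := by
          calc 48 ≤ 8 * 1 * (2 * 3 + 2) := by norm_num
            _ ≤ 8 * K * (2 * d + 2) := by gcongr; exact hK
      _ ≤ k := hk
  have hq0 : 0 < q := by omega
  have hke : 2 * (q + 1) + e = k := by omega
  have hc1 : q < 2 * K * (c + 1) := by
    have h1 : q / K < 2 * (c + 1) := by omega
    have h2 := (Nat.div_lt_iff_lt_mul hK).1 h1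
    calc q < 2 * (c + 1) * K := h2
      _ = _ := by ring
  have hc2 : 4 * d + 3 ≤ c := by
    by_contra hcon
    have h3 : c + 1 ≤ 4 * d + 3 := by omega
    have h4 : 2 * K * (c + 1) ≤ 2 * K * (4 * d + 3) := Nat.mul_le_mul_left _ h3
    have h5 : 8 * K * (2 * d + 2) = 2 * (2 * K * (4 * d + 3)) + 4 * K := by ring
    omega
  have hkc : k ≤ 8 * K * (c - 2 * d) := by
    obtain ⟨c', hc'⟩ : ∃ c', c = 2 * d + c' := ⟨c - 2 * d, by omega⟩
    have h6 : c - 2 * d = c' := by omega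
    rw [h6]
    have h7 : c + 1 + 2 ≤ 2 * c' := by omega
    have h8 : 2 * K * (c + 1) + 4 * K ≤ 4 * K * c' := by
      calc 2 * K * (c + 1) + 4 * K = 2 * K * (c + 1 + 2) := by ring
        _ ≤ 2 * K * (2 * c') := Nat.mul_le_mul_left _ h7
        _ = _ := by ring
    have h9 : 8 * K * c' = 2 * (4 * K * c') := by ring
    omega
  obtain ⟨φ, hφ⟩ := hexp q hq0
  -- a lower bound for `u`
  obtain ⟨u₁, hu₁⟩ := eventually_atTop.1 (M.err_small q (2 * d) c (by omega) (by omega))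
  obtain ⟨C, hC⟩ : ∃ C, C = 2 * (q + 1) * 2 ^ d + e := ⟨_, rfl⟩
  obtain ⟨n₁, hn₁⟩ := eventually_atTop.1 (M.m_large hd3 hdε hε C)
  obtain ⟨u₀, hu₀⟩ : ∃ u₀, u₀ = u₁ + C + 8 * (1 + 2 * c) := ⟨_, rfl⟩
  refine ⟨n₁ + (2 * (q + 1) * u₀ ^ d + e) + 1, fun n hn s t ht hcirc => ?_⟩
  obtain ⟨u, huu, hnu, hnC⟩ := M.exists_u (a := 2 * (q + 1)) (d := d) (e := e) (u₀ := u₀) (n := n)
    (by omega) (by omega) (by omega) (by omega)
  rw [← hC] at hnC
  have hu1 : 1 ≤ u := by omega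
  have hfin : (n : ℝ) ^ (1 / (8 * (K : ℝ) * (d + 1)) * k) ≤ (u : ℝ) ^ (c - 2 * d) :=
    M.final_exp hK hkc (by omega) hu1 (by omega) hnC
  refine hfin.trans ?_
  by_contra hs
  have hs' : (s : ℝ) < (u : ℝ) ^ (c - 2 * d) := not_le.1 hs
  rw [← hke] at hcirc
  obtain ⟨t', ht', hb⟩ := M.core hd3 hnu φ hφ (c := c) (by omega) (by omega) (by omega) hcirc
  have herr := hu₁ u (by omega)
  have herr0 : 0 ≤ err ((q + 1) * u ^ (2 * d)) u c u := by
    unfold err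
    positivity
  have h10 : (u : ℝ) ^ (2 * d - 6) * (s * err ((q + 1) * u ^ (2 * d)) u c u) ≤ 1 := by
    refine le_trans ?_ herr
    gcongr
  have h11 := M.neg_count hε (show 1 ≤ n by omega) ht' ht
  have h12 := hn₁ n (by omega) u (by omega) hnC
  have h13 : (0 : ℝ) ≤ (((t' + 1) * 2 ^ t' : ℕ) : ℝ) := Nat.cast_nonneg _
  nlinarith

end FewNeg
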