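import Pool.Agent.Lib.MP_678664_lc_FN.Defs

/-! Elementary facts about indicators, averages and layers. -/

open Finset

namespace FewNeg

theorem ind_true {p : Prop} (h : p) : ind p = 1 := by
  unfold ind; simp [h]

theorem ind_false {p : Prop} (h : ¬ p) : ind p = 0 := by
  unfold ind; simp [h]

theorem ind_nonneg (p : Prop) : 0 ≤ ind p := by
  unfold ind; split_ifs <;> norm_num

theorem ind_le_one (p : Prop) : ind p ≤ 1 := by
  unfold ind; split_ifs <;> norm_num

theorem ind_mono {p q : Prop} (h : p → q) : ind p ≤ ind q := by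
  by_cases hp : p
  · rw [ind_true hp, ind_true (h hp)]
  · rw [ind_false hp]; exact ind_nonneg q

theorem ind_not (p : Prop) : ind (¬ p) = 1 - ind p := by
  by_cases hp : p
  · rw [ind_true hp, ind_false (not_not.2 hp)]; ring
  · rw [ind_false hp, ind_true hp]; ring

theorem ind_or_le (p q : Prop) : ind (p ∨ q) ≤ ind p + ind q := by
  by_cases hp : p
  · rw [ind_true (Or.inl hp), ind_true hp]
    linarith [ind_nonneg q]
  · by_cases hq : q
    · rw [ind_true (Or.inr hq), ind_true hq]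
      linarith [ind_nonneg p]
    · rw [ind_false (by tauto)]
      linarith [ind_nonneg p, ind_nonneg q]

theorem ind_exists_le {α : Type} (s : Finset α) (p : α → Prop) :
    ind (∃ a ∈ s, p a) ≤ ∑ a ∈ s, ind (p a) := by
  by_cases h : ∃ a ∈ s, p a
  · rw [ind_true h]
    obtain ⟨a, ha, hp⟩ := h
    rw [← ind_true hp]
    exact Finset.single_le_sum (f := fun a => ind (p a)) (fun b _ => ind_nonneg _) ha
  · rw [ind_false h]
    exact Finset.sum_nonneg fun b _ => ind_nonneg _

section Avg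

variable {Z : Type} [Fintype Z]

theorem avg_mono {F F' : Z → ℝ} (h : ∀ z, F z ≤ F' z) : avg F ≤ avg F' := by
  unfold avg
  exact div_le_div_of_nonneg_right (Finset.sum_le_sum fun z _ => h z) (by positivity)

theorem avg_nonneg {F : Z → ℝ} (h : ∀ z, 0 ≤ F z) : 0 ≤ avg F := by
  unfold avg
  exact div_nonneg (Finset.sum_nonneg fun z _ => h z) (by positivity)

theorem avg_add (F F' : Z → ℝ) : avg (fun z => F z + F' z) = avg F + avg F' := by
  unfold avg
  rw [Finset.sum_add_distrib, add_div]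

theorem avg_sub (F F' : Z → ℝ) : avg (fun z => F z - F' z) = avg F - avg F' := by
  unfold avg
  rw [Finset.sum_sub_distrib, sub_div]

theorem avg_mul_left (c : ℝ) (F : Z → ℝ) : avg (fun z => c * F z) = c * avg F := by
  unfold avg
  rw [← Finset.mul_sum, mul_div_assoc]

theorem avg_sum {α : Type} (s : Finset α) (F : α → Z → ℝ) :
    avg (fun z => ∑ a ∈ s, F a z) = ∑ a ∈ s, avg (F a) := by
  unfold avg
  rw [Finset.sum_comm, Finset.sum_div]

theorem avg_const [Nonempty Z] (c : ℝ) : avg (fun _ : Z => c) = c := by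
  unfold avg
  rw [Finset.sum_const, Finset.card_univ, nsmul_eq_mul]
  field_simp

theorem avg_le_one [Nonempty Z] {F : Z → ℝ} (h : ∀ z, F z ≤ 1) : avg F ≤ 1 :=
  (avg_mono h).trans (avg_const 1).le

end Avg

section T

variable {E : Type} [Fintype E] [DecidableEq E]

theorem T_mono {Q : ℕ} {F F' : Set E → ℝ} (h : ∀ S, F S ≤ F' S) (S : Set E) :
    T Q F S ≤ T Q F' S := avg_mono fun _ => h _

theorem T_nonneg {Q : ℕ} {F : Set E → ℝ} (h : ∀ S, 0 ≤ F S) (S : Set E) :
    0 ≤ T Q F S := avg_nonneg fun _ => h _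

theorem T_add {Q : ℕ} (F F' : Set E → ℝ) :
    T Q (fun S => F S + F' S) = fun S => T Q F S + T Q F' S := by
  funext S; exact avg_add _ _

theorem T_sub {Q : ℕ} (F F' : Set E → ℝ) :
    T Q (fun S => F S - F' S) = fun S => T Q F S - T Q F' S := by
  funext S; exact avg_sub _ _

theorem T_mul_left {Q : ℕ} (c : ℝ) (F : Set E → ℝ) :
    T Q (fun S => c * F S) = fun S => c * T Q F S := by
  funext S; exact avg_mul_left _ _

theorem T_sum {Q : ℕ} {α : Type} (s : Finset α) (F : α → Set E → ℝ) :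
    T Q (fun S => ∑ a ∈ s, F a S) = fun S => ∑ a ∈ s, T Q (F a) S := by
  funext S; exact avg_sum _ _

theorem T_const {Q : ℕ} (hQ : 0 < Q) (c : ℝ) : T Q (fun _ : Set E => c) = fun _ => c := by
  funext S
  have : Nonempty (E → Fin Q) := ⟨fun _ => ⟨0, hQ⟩⟩
  exact avg_const c

theorem T_iter_mono' {Q : ℕ} {F F' : Set E → ℝ} (h : ∀ S, F S ≤ F' S) (N : ℕ) :
    ∀ S, (T Q)^[N] F S ≤ (T Q)^[N] F' S := by
  induction N with
  | zero => exact h
  | succ N ih =>
    intro S
    rw [Function.iterate_succ_apply', Function.iterate_succ_apply']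
    exact T_mono ih S

theorem T_iter_add {Q : ℕ} (F F' : Set E → ℝ) (N : ℕ) :
    (T Q)^[N] (fun S => F S + F' S) = fun S => (T Q)^[N] F S + (T Q)^[N] F' S := by
  induction N with
  | zero => rfl
  | succ N ih => rw [Function.iterate_succ_apply', ih, T_add]; simp [Function.iterate_succ_apply']

theorem T_iter_sub {Q : ℕ} (F F' : Set E → ℝ) (N : ℕ) :
    (T Q)^[N] (fun S => F S - F' S) = fun S => (T Q)^[N] F S - (T Q)^[N] F' S := by
  induction N with
  | zero => rfl
  | succ N ih => rw [Function.iterate_succ_apply', ih, T_sub]; simp [Function.iterate_succ_apply']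

theorem T_iter_mul_left {Q : ℕ} (c : ℝ) (F : Set E → ℝ) (N : ℕ) :
    (T Q)^[N] (fun S => c * F S) = fun S => c * (T Q)^[N] F S := by
  induction N with
  | zero => rfl
  | succ N ih =>
    rw [Function.iterate_succ_apply', ih, T_mul_left]; simp [Function.iterate_succ_apply']

theorem T_iter_sum {Q : ℕ} {α : Type} (s : Finset α) (F : α → Set E → ℝ) (N : ℕ) :
    (T Q)^[N] (fun S => ∑ a ∈ s, F a S) = fun S => ∑ a ∈ s, (T Q)^[N] (F a) S := by
  induction N with
  | zero => rfl
  | succ N ih => rw [Function.iterate_succ_apply', ih, T_sum]; simp [Function.iterate_succ_apply']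

theorem T_iter_const {Q : ℕ} (hQ : 0 < Q) (c : ℝ) (N : ℕ) :
    (T Q)^[N] (fun _ : Set E => c) = fun _ => c := by
  induction N with
  | zero => rfl
  | succ N ih => rw [Function.iterate_succ_apply', ih, T_const hQ]

theorem T_iter_nonneg {Q : ℕ} {F : Set E → ℝ} (h : ∀ S, 0 ≤ F S) (N : ℕ) :
    ∀ S, 0 ≤ (T Q)^[N] F S := by
  induction N with
  | zero => exact h
  | succ N ih => intro S; rw [Function.iterate_succ_apply']; exact T_nonneg ih S

/-- A monotone function grows under `T`. -/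
theorem le_T {Q : ℕ} (hQ : 0 < Q) {F : Set E → ℝ} (h : ∀ S S', S ⊆ S' → F S ≤ F S') (S : Set E) :
    F S ≤ T Q F S := by
  have : Nonempty (E → Fin Q) := ⟨fun _ => ⟨0, hQ⟩⟩
  calc F S = avg (fun _ : E → Fin Q => F S) := (avg_const _).symm
    _ ≤ _ := avg_mono fun η => h _ _ Set.subset_union_left

theorem T_monotone {Q : ℕ} {F : Set E → ℝ} (h : ∀ S S', S ⊆ S' → F S ≤ F S') :
    ∀ S S', S ⊆ S' → T Q F S ≤ T Q F S' :=
  fun _ _ hS => avg_mono fun _ => h _ _ (Set.union_subset_union_left _ hS)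

theorem T_iter_monotone {Q : ℕ} {F : Set E → ℝ} (h : ∀ S S', S ⊆ S' → F S ≤ F S') (N : ℕ) :
    ∀ S S', S ⊆ S' → (T Q)^[N] F S ≤ (T Q)^[N] F S' := by
  induction N with
  | zero => exact h
  | succ N ih =>
    intro S S' hS
    rw [Function.iterate_succ_apply']
    exact T_monotone ih S S' hS

theorem T_iter_le_succ {Q : ℕ} (hQ : 0 < Q) {F : Set E → ℝ}
    (h : ∀ S S', S ⊆ S' → F S ≤ F S') (N : ℕ) (S : Set E) :
    (T Q)^[N] F S ≤ (T Q)^[N + 1] F S := by
  rw [Function.iterate_succ_apply']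
  exact le_T hQ (T_iter_monotone h N) S

theorem T_iter_le_of_le {Q : ℕ} (hQ : 0 < Q) {F : Set E → ℝ}
    (h : ∀ S S', S ⊆ S' → F S ≤ F S') {N N' : ℕ} (hN : N ≤ N') (S : Set E) :
    (T Q)^[N] F S ≤ (T Q)^[N'] F S := by
  induction N', hN using Nat.le_induction with
  | base => exact le_rfl
  | succ N' _ ih => exact ih.trans (T_iter_le_succ hQ h N' S)

end T

end FewNeg
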