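import Pool.Agent.Lib.MP_678664_lc_FN.Basic
import Pool.Agent.Lib.MP_678664_lc_FN.Layer

/-! Module C: closed families. -/

open Finset

namespace FewNeg

namespace ClosedAux

variable {E : Type} [Fintype E] [DecidableEq E]

omit [Fintype E] [DecidableEq E] in
theorem hits_mono {A : Finset (Finset E)} {S S' : Set E} (h : S ⊆ S') (hA : Hits A S) :
    Hits A S' := by
  obtain ⟨a, ha, haS⟩ := hA
  exact ⟨a, ha, haS.trans h⟩

omit [Fintype E] in
theorem exists_minl {A : Finset (Finset E)} {S : Set E} (h : Hits A S) :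
    ∃ a ∈ A, a ∈ minl A a.card ∧ (a : Set E) ⊆ S := by
  classical
  obtain ⟨a₀, ha₀, ha₀S⟩ := h
  have hne : (A.filter fun a : Finset E => (a : Set E) ⊆ S).Nonempty := ⟨a₀, by simp [ha₀, ha₀S]⟩
  obtain ⟨a, ha, hmin⟩ := Finset.exists_min_image _ Finset.card hne
  rw [Finset.mem_filter] at ha
  refine ⟨a, ha.1, ?_, ha.2⟩
  unfold minl
  rw [Finset.mem_filter]
  refine ⟨ha.1, rfl, fun b hb hba => ?_⟩
  have hbS : (b : Set E) ⊆ S := (Finset.coe_subset.2 hba).trans ha.2
  exact Finset.eq_of_subset_of_card_le hba (hmin b (by simp [hb, hbS]))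

theorem pow_ratio {lam k : ℕ} (hlam1 : 1 ≤ lam) (hk : k ≤ lam) :
    ((1 + lam : ℕ) : ℝ) ^ k ≤ 4 * (lam : ℝ) ^ k := by
  have hl : (0 : ℝ) < lam := by exact_mod_cast hlam1
  have h1 : ((1 + lam : ℕ) : ℝ) = lam * (1 + 1 / lam) := by
    push_cast; field_simp; ring
  rw [h1, mul_pow, mul_comm]
  apply mul_le_mul_of_nonneg_right _ (by positivity)
  have h2 : 1 + 1 / (lam : ℝ) ≤ Real.exp (1 / lam) := by
    have := Real.add_one_le_exp (1 / (lam : ℝ))
    linarith
  calc (1 + 1 / (lam : ℝ)) ^ k ≤ Real.exp (1 / lam) ^ k := by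
        apply pow_le_pow_left₀ (by positivity) h2
    _ = Real.exp (k * (1 / lam)) := by rw [Real.exp_nat_mul]
    _ ≤ Real.exp 1 := by
        apply Real.exp_le_exp.2
        rw [mul_one_div, div_le_one hl]
        exact_mod_cast hk
    _ ≤ 4 := by linarith [Real.exp_one_lt_d9]

/-- Number of sets of size at most `L`. -/
theorem card_small (L : ℕ) :
    (univ.filter fun b : Finset E => b.card ≤ L).card ≤ (Fintype.card E + 1) ^ L := by
  classical
  induction L with
  | zero =>
    have : (univ.filter fun b : Finset E => b.card ≤ 0) = {∅} := by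
      ext b; simp
    rw [this]; simp
  | succ L ih =>
    have hsub : (univ.filter fun b : Finset E => b.card ≤ L + 1) ⊆
        ((univ.filter fun b : Finset E => b.card ≤ L) ×ˢ (univ : Finset (Option E))).image
          (fun p => match p.2 with
            | none => p.1
            | some e => insert e p.1) := by
      intro b hb
      simp only [mem_filter, mem_univ, true_and] at hb
      rw [mem_image]
      by_cases hbL : b.card ≤ L
      · exact ⟨(b, none), by simp [hbL], rfl⟩
      · have hpos : 0 < b.card := by omega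
        obtain ⟨e, he⟩ := Finset.card_pos.1 hpos
        refine ⟨(b.erase e, some e), ?_, ?_⟩
        · simp only [mem_product, mem_filter, mem_univ, true_and, and_true]
          rw [Finset.card_erase_of_mem he]; omega
        · simp [Finset.insert_erase he]
    refine (Finset.card_le_card hsub).trans (Finset.card_image_le.trans ?_)
    rw [Finset.card_product, Finset.card_univ, Fintype.card_option, pow_succ]
    exact Nat.mul_le_mul_right _ ih

/-- If one layer hits with probability at least `1 / 4`, then `R` layers fail with probability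
at most `(3 / 4) ^ R`. -/
theorem iter_fail {Q : ℕ} (hQ : 0 < Q) {A : Finset (Finset E)} {b : Finset E}
    (h : 1 / 4 ≤ avg (fun η : E → Fin Q => ind (Hits A ((b : Set E) ∪ layer η)))) (R : ℕ) :
    (T Q)^[R] (fun S => ind (¬ Hits A (S ∪ (b : Set E)))) ∅ ≤ (3 / 4) ^ R := by
  have key : ∀ S, T Q (fun S => ind (¬ Hits A (S ∪ (b : Set E)))) S
      ≤ (3 / 4) * ind (¬ Hits A (S ∪ (b : Set E))) := by
    intro S
    have : Nonempty (E → Fin Q) := ⟨fun _ => ⟨0, hQ⟩⟩
    by_cases hS : Hits A (S ∪ (b : Set E))
    · rw [ind_false (not_not.2 hS), mul_zero]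
      have h0 : ∀ η : E → Fin Q, ind (¬ Hits A (S ∪ layer η ∪ (b : Set E))) ≤ 0 := by
        intro η
        rw [ind_false]
        exact not_not.2 (hits_mono (Set.union_subset_union_left _ Set.subset_union_left) hS)
      exact (avg_mono h0).trans (avg_const (Z := E → Fin Q) 0).le
    · rw [ind_true hS, mul_one]
      have h1 : ∀ η : E → Fin Q, ind (¬ Hits A (S ∪ layer η ∪ (b : Set E)))
          ≤ 1 - ind (Hits A ((b : Set E) ∪ layer η)) := by
        intro η
        rw [← ind_not]
        apply ind_mono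
        intro hn hh
        apply hn
        refine hits_mono ?_ hh
        intro x hx
        rcases hx with hx | hx
        · exact Or.inr hx
        · exact Or.inl (Or.inr hx)
      refine (avg_mono h1).trans ?_
      rw [avg_sub, avg_const]
      linarith
  have main : ∀ R : ℕ, ∀ S, (T Q)^[R] (fun S => ind (¬ Hits A (S ∪ (b : Set E)))) S
      ≤ (3 / 4) ^ R * ind (¬ Hits A (S ∪ (b : Set E))) := by
    intro R
    induction R with
    | zero => intro S; simp
    | succ R ih =>
      intro S
      rw [Function.iterate_succ_apply']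
      refine (T_mono ih S).trans ?_
      rw [T_mul_left]
      calc (3 / 4 : ℝ) ^ R * T Q (fun S => ind (¬ Hits A (S ∪ (b : Set E)))) S
          ≤ (3 / 4) ^ R * ((3 / 4) * ind (¬ Hits A (S ∪ (b : Set E)))) :=
            mul_le_mul_of_nonneg_left (key S) (by positivity)
        _ = _ := by ring
  refine (main R ∅).trans ?_
  calc (3 / 4 : ℝ) ^ R * ind (¬ Hits A (∅ ∪ (b : Set E))) ≤ (3 / 4) ^ R * 1 :=
        mul_le_mul_of_nonneg_left (ind_le_one _) (by positivity)
    _ = _ := by ring

end ClosedAux

open ClosedAux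

variable {E : Type} [Fintype E] [DecidableEq E]

/-- Few minimal members of a closed family contain a given set. -/
theorem minl_degree {Q R L lam : ℕ} (hQ : 0 < Q) (hlam : L ≤ lam) (hlam1 : 1 ≤ lam)
    {A : Finset (Finset E)} (hA : Closed Q R L A) (l : ℕ) (b : Finset E) (hb : b.card ≤ l) :
    ((minl A l).filter fun a => b ⊆ a).card ≤ (lam * Q) ^ (l - b.card) := by
  classical
  obtain ⟨k, hk⟩ : ∃ k, l - b.card = k := ⟨_, rfl⟩
  induction k using Nat.strong_induction_on generalizing b with
  | _ k ih =>
  rcases Nat.eq_zero_or_pos k with hk0 | hk0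
  · rw [hk, hk0, pow_zero]
    have hbl : b.card = l := by omega
    rw [Finset.card_le_one]
    intro a ha a' ha'
    simp only [minl, mem_filter] at ha ha'
    have h1 : b = a := Finset.eq_of_subset_of_card_le ha.2 (by rw [ha.1.2.1, hbl])
    have h2 : b = a' := Finset.eq_of_subset_of_card_le ha'.2 (by rw [ha'.1.2.1, hbl])
    rw [← h1, ← h2]
  · by_contra hcon
    push Not at hcon
    rw [hk] at hcon
    set F := (minl A l).filter fun a => b ⊆ a with hF
    have hne : F.Nonempty := by
      rw [← Finset.card_pos]; omega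
    obtain ⟨a₀, ha₀⟩ := hne
    have ha₀' := ha₀
    simp only [hF, minl, mem_filter] at ha₀'
    have hlL : l ≤ L := by
      rw [← ha₀'.1.2.1]; exact hA.1 a₀ ha₀'.1.1
    have hF' : ∀ a ∈ F, b ⊆ a ∧ a.card = l := by
      intro a ha
      simp only [hF, minl, mem_filter] at ha
      exact ⟨ha.2, ha.1.2.1⟩
    have hdeg : ∀ d : Finset E, b ⊂ d →
        (F.filter fun a => d ⊆ a).card ≤ (lam * Q) ^ (l - d.card) := by
      intro d hd
      by_cases hdl : d.card ≤ l
      · have hlt := Finset.card_lt_card hd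
        refine le_trans (Finset.card_le_card ?_) (ih (l - d.card) (by omega) d hdl rfl)
        intro a ha
        simp only [hF, mem_filter] at ha ⊢
        exact ⟨ha.1.1, ha.2⟩
      · have : (F.filter fun a => d ⊆ a) = ∅ := by
          rw [Finset.filter_eq_empty_iff]
          intro a ha hda
          have := Finset.card_le_card hda
          rw [(hF' a ha).2] at this
          exact hdl this
        rw [this]; simp
    have hsm := second_moment hQ F b l lam hF' ⟨a₀, ha₀⟩ hdeg
    rw [hk] at hsm
    have hQr : (0 : ℝ) < (Q : ℝ) := by exact_mod_cast hQ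
    have hlr : (0 : ℝ) < (lam : ℝ) := by exact_mod_cast hlam1
    have hμ : (lam : ℝ) ^ k ≤ (F.card : ℝ) / Q ^ k := by
      rw [le_div_iff₀ (by positivity), ← mul_pow]
      exact_mod_cast hcon.le
    have hkl : k ≤ lam := by omega
    have hr := pow_ratio hlam1 hkl
    have hquarter : 1 / 4 ≤ ((F.card : ℝ) / Q ^ k) /
        ((F.card : ℝ) / Q ^ k + (((1 + lam : ℕ) : ℝ) ^ k - (lam : ℝ) ^ k)) := by
      have hpos : (0 : ℝ) < (F.card : ℝ) / Q ^ k := lt_of_lt_of_le (by positivity) hμ
      have hge : (lam : ℝ) ^ k ≤ ((1 + lam : ℕ) : ℝ) ^ k := by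
        apply pow_le_pow_left₀ hlr.le
        push_cast; linarith
      rw [div_le_div_iff₀ (by norm_num) (by linarith)]
      linarith
    have h4 : 1 / 4 ≤ avg (fun η : E → Fin Q => ind (Hits A ((b : Set E) ∪ layer η))) := by
      refine hquarter.trans (hsm.trans (avg_mono fun η => ind_mono ?_))
      rintro ⟨a, ha, haS⟩
      simp only [hF, minl, mem_filter] at ha
      exact ⟨a, ha.1.1, haS⟩
    have hbA : b ∈ A := hA.2 b (by omega) (iter_fail hQ h4 R)
    have := ha₀'.1.2.2 b hbA ha₀'.2
    have hc := ha₀'.1.2.1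
    rw [← this] at hc
    omega

/-- Closed families hit the planted set with at most the probability with which they hit `R`
random layers. -/
theorem closed_compare {Z : Type} [Fintype Z] [Nonempty Z] {Q R L lam ρ : ℕ} (hQ : 0 < Q)
    (hR : 0 < R) (hlam : L ≤ lam) (hlam1 : 1 ≤ lam) (hρ : 8 * (1 + lam) ≤ ρ)
    {Y : Z → Set E} (hY : Spread Y (Q * ρ) L)
    {A : Finset (Finset E)} (hA : Closed Q R L A) :
    avg (fun z => ind (Hits A (Y z))) ≤ (T Q)^[R] (fun S => ind (Hits A S)) ∅ := by
  classical
  by_cases hempty : ∅ ∈ A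
  · have h1 : ∀ S, ind (Hits A S) = 1 := fun S => ind_true ⟨∅, hempty, by simp⟩
    have h2 : (fun S : Set E => ind (Hits A S)) = fun _ => 1 := by funext S; exact h1 S
    rw [h2, T_iter_const hQ]
    exact avg_le_one fun z => ind_le_one _
  have hQr : (0 : ℝ) < (Q : ℝ) := by exact_mod_cast hQ
  have hρr : (0 : ℝ) < (ρ : ℝ) := by
    have : 0 < ρ := by omega
    exact_mod_cast this
  set P1 : ℝ := avg (fun η : E → Fin Q => ind (Hits A (layer η))) with hP1
  have hP1nn : 0 ≤ P1 := avg_nonneg fun _ => ind_nonneg _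
  have hterm : ∀ l ∈ Finset.Icc 1 L,
      ((minl A l).card : ℝ) * (1 / ((Q * ρ : ℕ) : ℝ)) ^ l ≤ (1 / 8) ^ l * P1 := by
    intro l hl
    rcases Nat.eq_zero_or_pos (minl A l).card with h0 | h0
    · rw [h0]; simp; positivity
    have hne := Finset.card_pos.1 h0
    have hF' : ∀ a ∈ minl A l, (∅ : Finset E) ⊆ a ∧ a.card = l := by
      intro a ha
      simp only [minl, mem_filter] at ha
      exact ⟨Finset.empty_subset a, ha.2.1⟩
    have hdeg : ∀ d : Finset E, ∅ ⊂ d →
        ((minl A l).filter fun a => d ⊆ a).card ≤ (lam * Q) ^ (l - d.card) := by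
      intro d hd
      by_cases hdl : d.card ≤ l
      · exact minl_degree hQ hlam hlam1 hA l d hdl
      · have : ((minl A l).filter fun a => d ⊆ a) = ∅ := by
          rw [Finset.filter_eq_empty_iff]
          intro a ha hda
          have := Finset.card_le_card hda
          rw [(hF' a ha).2] at this
          exact hdl this
        rw [this]; simp
    have hsm := second_moment hQ (minl A l) ∅ l lam hF' hne hdeg
    simp only [Finset.card_empty, Nat.sub_zero, Finset.coe_empty, Set.empty_union] at hsm
    have h0' := minl_degree hQ hlam hlam1 hA l ∅ (by simp)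
    simp only [Finset.empty_subset, Finset.filter_true, Finset.card_empty, Nat.sub_zero] at h0'
    set μ : ℝ := ((minl A l).card : ℝ) / Q ^ l with hμ
    have hμpos : 0 < μ := by
      rw [hμ]
      have : (0 : ℝ) < (minl A l).card := by exact_mod_cast h0
      positivity
    have hμle : μ ≤ (lam : ℝ) ^ l := by
      rw [hμ, div_le_iff₀ (by positivity), ← mul_pow]
      exact_mod_cast h0'
    have hle1 : avg (fun η : E → Fin Q => ind (∃ a ∈ minl A l, (a : Set E) ⊆ layer η)) ≤ P1 := by
      apply avg_mono
      intro η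
      apply ind_mono
      rintro ⟨a, ha, haS⟩
      simp only [minl, mem_filter] at ha
      exact ⟨a, ha.1, haS⟩
    have hge : (lam : ℝ) ^ l ≤ ((1 + lam : ℕ) : ℝ) ^ l := by
      apply pow_le_pow_left₀ (by positivity)
      push_cast; linarith
    have h3 : μ ≤ ((1 + lam : ℕ) : ℝ) ^ l * P1 := by
      have h4 : μ / (((1 + lam : ℕ) : ℝ) ^ l) ≤ P1 := by
        refine le_trans ?_ (hsm.trans hle1)
        apply div_le_div_of_nonneg_left hμpos.le (by linarith) (by linarith)
      rw [div_le_iff₀ (by positivity)] at h4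
      linarith
    have h5 : ((minl A l).card : ℝ) * (1 / ((Q * ρ : ℕ) : ℝ)) ^ l = μ / ρ ^ l := by
      rw [hμ, one_div, inv_pow]
      push_cast
      rw [mul_pow, div_div, div_eq_mul_inv]
    rw [h5]
    calc μ / (ρ : ℝ) ^ l ≤ (((1 + lam : ℕ) : ℝ) ^ l * P1) / (ρ : ℝ) ^ l := by gcongr
      _ = (((1 + lam : ℕ) : ℝ) / ρ) ^ l * P1 := by rw [div_pow]; ring
      _ ≤ (1 / 8) ^ l * P1 := by
          apply mul_le_mul_of_nonneg_right _ hP1nn
          apply pow_le_pow_left₀ (by positivity)
          rw [div_le_div_iff₀ hρr (by norm_num)]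
          have : ((8 * (1 + lam) : ℕ) : ℝ) ≤ ρ := by exact_mod_cast hρ
          push_cast at this ⊢
          linarith
  have hsum8 : ∑ l ∈ Finset.Icc 1 L, (1 / 8 : ℝ) ^ l ≤ 1 := by
    have : ∀ L : ℕ, ∑ l ∈ Finset.Icc 1 L, (1 / 8 : ℝ) ^ l = (1 - (1 / 8) ^ L) / 7 := by
      intro L
      induction L with
      | zero => simp
      | succ L ih => rw [Finset.sum_Icc_succ_top (by omega), ih, pow_succ]; ring
    rw [this]
    have : (0 : ℝ) < (1 / 8) ^ L := by positivity
    linarith
  calc avg (fun z => ind (Hits A (Y z)))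
      ≤ avg (fun z => ∑ l ∈ Finset.Icc 1 L, ∑ a ∈ minl A l, ind ((a : Set E) ⊆ Y z)) := by
        apply avg_mono
        intro z
        by_cases h : Hits A (Y z)
        · rw [ind_true h]
          obtain ⟨a, ha, hamin, haS⟩ := exists_minl h
          have hl : a.card ∈ Finset.Icc 1 L := by
            rw [Finset.mem_Icc]
            refine ⟨?_, hA.1 a ha⟩
            rcases Nat.eq_zero_or_pos a.card with h0 | h0
            · rw [Finset.card_eq_zero] at h0
              rw [h0] at ha
              exact absurd ha hempty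
            · exact h0
          calc (1 : ℝ) = ind ((a : Set E) ⊆ Y z) := (ind_true haS).symm
            _ ≤ ∑ a' ∈ minl A a.card, ind ((a' : Set E) ⊆ Y z) :=
                Finset.single_le_sum (f := fun a' : Finset E => ind ((a' : Set E) ⊆ Y z))
                  (fun b _ => ind_nonneg _) hamin
            _ ≤ _ := Finset.single_le_sum
                (f := fun l => ∑ a' ∈ minl A l, ind ((a' : Set E) ⊆ Y z))
                (fun l _ => Finset.sum_nonneg fun b _ => ind_nonneg _) hl
        · rw [ind_false h]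
          exact Finset.sum_nonneg fun l _ => Finset.sum_nonneg fun b _ => ind_nonneg _
    _ = ∑ l ∈ Finset.Icc 1 L, ∑ a ∈ minl A l, avg (fun z => ind ((a : Set E) ⊆ Y z)) := by
        rw [avg_sum]
        exact Finset.sum_congr rfl fun l _ => avg_sum _ _
    _ ≤ ∑ l ∈ Finset.Icc 1 L, ∑ a ∈ minl A l, (1 / ((Q * ρ : ℕ) : ℝ)) ^ l := by
        apply Finset.sum_le_sum
        intro l hl
        apply Finset.sum_le_sum
        intro a ha
        simp only [minl, mem_filter] at ha
        have := hY a (by rw [ha.2.1]; exact (Finset.mem_Icc.1 hl).2)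
        rw [ha.2.1] at this
        exact this
    _ = ∑ l ∈ Finset.Icc 1 L, ((minl A l).card : ℝ) * (1 / ((Q * ρ : ℕ) : ℝ)) ^ l := by
        apply Finset.sum_congr rfl
        intro l _
        rw [Finset.sum_const, nsmul_eq_mul]
    _ ≤ ∑ l ∈ Finset.Icc 1 L, (1 / 8 : ℝ) ^ l * P1 := Finset.sum_le_sum hterm
    _ = (∑ l ∈ Finset.Icc 1 L, (1 / 8 : ℝ) ^ l) * P1 := by rw [Finset.sum_mul]
    _ ≤ 1 * P1 := mul_le_mul_of_nonneg_right hsum8 hP1nn
    _ = (T Q)^[1] (fun S => ind (Hits A S)) ∅ := by
        rw [one_mul, hP1]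
        simp [T]
    _ ≤ (T Q)^[R] (fun S => ind (Hits A S)) ∅ :=
        T_iter_le_of_le hQ (fun S S' hS => ind_mono (hits_mono hS)) hR ∅

/-- Large minimal members are rarely contained in the planted set. -/
theorem trim_error {Z : Type} [Fintype Z] [Nonempty Z] {Q R c ρ : ℕ} (hQ : 0 < Q)
    (hc : 1 ≤ c) (hρ : 8 * (1 + 2 * c) ≤ ρ)
    {Y : Z → Set E} (hY : Spread Y (Q * ρ) (2 * c))
    {A : Finset (Finset E)} (hA : Closed Q R (2 * c) A) :
    avg (fun z => ind (∃ l, c < l ∧ ∃ a ∈ minl A l, (a : Set E) ⊆ Y z))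
      ≤ 2 * (2 * c / ρ : ℝ) ^ (c + 1) := by
  classical
  have hQr : (0 : ℝ) < (Q : ℝ) := by exact_mod_cast hQ
  have hρr : (0 : ℝ) < (ρ : ℝ) := by
    have : 0 < ρ := by omega
    exact_mod_cast this
  set x : ℝ := 2 * c / ρ with hx
  have hx0 : 0 ≤ x := by positivity
  have hx8 : x ≤ 1 / 8 := by
    rw [hx, div_le_div_iff₀ hρr (by norm_num)]
    have : ((8 * (1 + 2 * c) : ℕ) : ℝ) ≤ ρ := by exact_mod_cast hρ
    push_cast at this
    linarith
  have hgeom : ∀ M : ℕ, ∑ l ∈ Finset.Ioc c (c + M), x ^ l
      ≤ x ^ (c + 1) * (8 / 7) * (1 - x ^ M) := by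
    intro M
    induction M with
    | zero => simp
    | succ M ih =>
      rw [← add_assoc, Finset.sum_Ioc_succ_top (by omega)]
      have h1 : x ^ (c + M + 1) = x ^ (c + 1) * x ^ M := by ring
      have h3 : 0 ≤ x ^ (c + 1) * x ^ M := by positivity
      have h4 : x ^ (M + 1) = x ^ M * x := pow_succ x M
      rw [h1, h4]
      nlinarith
  calc avg (fun z => ind (∃ l, c < l ∧ ∃ a ∈ minl A l, (a : Set E) ⊆ Y z))
      ≤ avg (fun z => ∑ l ∈ Finset.Ioc c (2 * c), ∑ a ∈ minl A l, ind ((a : Set E) ⊆ Y z)) := by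
        apply avg_mono
        intro z
        by_cases h : ∃ l, c < l ∧ ∃ a ∈ minl A l, (a : Set E) ⊆ Y z
        · rw [ind_true h]
          obtain ⟨l, hcl, a, ha, haS⟩ := h
          have ha' := ha
          simp only [minl, mem_filter] at ha'
          have hl : l ∈ Finset.Ioc c (2 * c) := by
            rw [Finset.mem_Ioc]
            exact ⟨hcl, by rw [← ha'.2.1]; exact hA.1 a ha'.1⟩
          calc (1 : ℝ) = ind ((a : Set E) ⊆ Y z) := (ind_true haS).symm
            _ ≤ ∑ a' ∈ minl A l, ind ((a' : Set E) ⊆ Y z) :=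
                Finset.single_le_sum (f := fun a' : Finset E => ind ((a' : Set E) ⊆ Y z))
                  (fun b _ => ind_nonneg _) ha
            _ ≤ _ := Finset.single_le_sum
                (f := fun l => ∑ a' ∈ minl A l, ind ((a' : Set E) ⊆ Y z))
                (fun l _ => Finset.sum_nonneg fun b _ => ind_nonneg _) hl
        · rw [ind_false h]
          exact Finset.sum_nonneg fun l _ => Finset.sum_nonneg fun b _ => ind_nonneg _
    _ = ∑ l ∈ Finset.Ioc c (2 * c), ∑ a ∈ minl A l, avg (fun z => ind ((a : Set E) ⊆ Y z)) := by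
        rw [avg_sum]
        exact Finset.sum_congr rfl fun l _ => avg_sum _ _
    _ ≤ ∑ l ∈ Finset.Ioc c (2 * c), x ^ l := by
        apply Finset.sum_le_sum
        intro l hl
        rw [Finset.mem_Ioc] at hl
        have h1 : ∑ a ∈ minl A l, avg (fun z => ind ((a : Set E) ⊆ Y z))
            ≤ ∑ a ∈ minl A l, (1 / ((Q * ρ : ℕ) : ℝ)) ^ l := by
          apply Finset.sum_le_sum
          intro a ha
          simp only [minl, mem_filter] at ha
          have := hY a (by rw [ha.2.1]; exact hl.2)
          rw [ha.2.1] at this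
          exact this
        refine h1.trans ?_
        rw [Finset.sum_const, nsmul_eq_mul]
        have h0' := minl_degree hQ (le_refl (2 * c)) (by omega) hA l ∅ (by simp)
        simp only [Finset.empty_subset, Finset.filter_true, Finset.card_empty, Nat.sub_zero] at h0'
        have h2 : ((minl A l).card : ℝ) ≤ ((2 * c : ℝ) * Q) ^ l := by exact_mod_cast h0'
        calc ((minl A l).card : ℝ) * (1 / ((Q * ρ : ℕ) : ℝ)) ^ l
            ≤ ((2 * c : ℝ) * Q) ^ l * (1 / ((Q * ρ : ℕ) : ℝ)) ^ l := by gcongr
          _ = x ^ l := by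
              rw [← mul_pow, hx]
              congr 1
              push_cast
              field_simp
    _ ≤ 2 * x ^ (c + 1) := by
        have := hgeom c
        have h2 : c + c = 2 * c := by ring
        rw [h2] at this
        have h3 : 0 ≤ x ^ (c + 1) * x ^ c := by positivity
        have h4 : 0 ≤ x ^ (c + 1) := by positivity
        nlinarith

/-- Closure. -/
theorem exists_closure {Q R L : ℕ} (hQ : 0 < Q) (A : Finset (Finset E))
    (hA : ∀ a ∈ A, a.card ≤ L) :
    ∃ B : Finset (Finset E), A ⊆ B ∧ Closed Q R L B ∧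
      (T Q)^[R] (fun S => ind (Hits B S ∧ ¬ Hits A S)) ∅
        ≤ ((Fintype.card E : ℝ) + 1) ^ L * (3 / 4) ^ R := by
  classical
  set W := univ.filter fun b : Finset E => b.card ≤ L with hW
  have main : ∀ n : ℕ, ∀ A : Finset (Finset E), (∀ a ∈ A, a.card ≤ L) → (W \ A).card = n →
      ∃ B : Finset (Finset E), A ⊆ B ∧ Closed Q R L B ∧
      (T Q)^[R] (fun S => ind (Hits B S ∧ ¬ Hits A S)) ∅ ≤ n * (3 / 4) ^ R := by
    intro n
    induction n with
    | zero =>
      intro A hA hn
      refine ⟨A, subset_rfl, ⟨hA, ?_⟩, ?_⟩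
      · intro b hb _
        by_contra hbA
        have : b ∈ W \ A := by simp [hW, hb, hbA]
        rw [Finset.card_eq_zero] at hn
        rw [hn] at this
        simp at this
      · have : (fun S : Set E => ind (Hits A S ∧ ¬ Hits A S)) = fun _ => 0 := by
          funext S; exact ind_false (by tauto)
        rw [this, T_iter_const hQ]
        simp
    | succ n ih =>
      intro A hA hn
      by_cases hcl : Closed Q R L A
      · refine ⟨A, subset_rfl, hcl, ?_⟩
        have : (fun S : Set E => ind (Hits A S ∧ ¬ Hits A S)) = fun _ => 0 := by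
          funext S; exact ind_false (by tauto)
        rw [this, T_iter_const hQ]
        positivity
      · have hex : ∃ b : Finset E, b.card ≤ L ∧
            (T Q)^[R] (fun S => ind (¬ Hits A (S ∪ (b : Set E)))) ∅ ≤ (3 / 4) ^ R ∧ b ∉ A := by
          by_contra hno
          push Not at hno
          exact hcl ⟨hA, hno⟩
        obtain ⟨b, hbL, hb, hbA⟩ := hex
        obtain ⟨B, hAB, hB, hBe⟩ := ih (insert b A) (by
          intro a ha
          rcases Finset.mem_insert.1 ha with h | h
          · rw [h]; exact hbL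
          · exact hA a h) (by
          have h1 : W \ insert b A = (W \ A).erase b := by
            ext a; simp only [mem_sdiff, mem_insert, mem_erase]; tauto
          rw [h1, Finset.card_erase_of_mem (by simp [hW, hbL, hbA]), hn]
          rfl)
        refine ⟨B, (Finset.subset_insert _ _).trans hAB, hB, ?_⟩
        have hpt : ∀ S : Set E, ind (Hits B S ∧ ¬ Hits A S)
            ≤ ind (Hits B S ∧ ¬ Hits (insert b A) S) + ind (¬ Hits A (S ∪ (b : Set E))) := by
          intro S
          refine le_trans (ind_mono ?_) (ind_or_le _ _)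
          rintro ⟨h1, h2⟩
          by_cases h3 : Hits (insert b A) S
          · right
            obtain ⟨a, ha, haS⟩ := h3
            rcases Finset.mem_insert.1 ha with h | h
            · rw [h] at haS
              rw [Set.union_eq_left.2 haS]
              exact h2
            · exact absurd ⟨a, h, haS⟩ h2
          · left; exact ⟨h1, h3⟩
        refine (T_iter_mono' hpt R ∅).trans ?_
        rw [T_iter_add]
        push_cast
        linarith
  obtain ⟨B, h1, h2, h3⟩ := main _ A hA rfl
  refine ⟨B, h1, h2, h3.trans ?_⟩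
  apply mul_le_mul_of_nonneg_right _ (by positivity)
  have h4 : (W \ A).card ≤ (Fintype.card E + 1) ^ L :=
    (Finset.card_le_card Finset.sdiff_subset).trans (card_small L)
  exact_mod_cast h4

end FewNeg
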