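import Mathlib

/-!
# Circuits with few NOT gates for `k`-clique: definitions

A circuit has AND and OR gates of fan-in two and NOT gates; its inputs are the variables
`x (u, v)`, true if and only if `u v` is an edge, for the pairs of vertices of a graph on `Fin n`.
-/

open Finset

namespace FewNeg

/-! ### Circuits -/

/-- A gate which may refer to the gates with numbers `< i`. -/
inductive Gate (ι : Type) (i : ℕ) : Type
  | input (v : ι)
  | const (b : Bool)
  | and (a b : Fin i)
  | or (a b : Fin i)
  | not (a : Fin i)

/-- Is the gate a NOT gate? -/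
def Gate.isNot {ι : Type} {i : ℕ} : Gate ι i → Bool
  | .not _ => true
  | _ => false

/-- A circuit: gate number `i` refers only to gates with smaller numbers. A circuit with `s`
gates is given by the gates with numbers `< s`; the other ones are irrelevant. -/
abbrev Circuit (ι : Type) := (i : ℕ) → Gate ι i

/-- The value of gate number `i` on the input `x`. -/
def Circuit.val {ι : Type} (C : Circuit ι) (x : ι → Prop) (i : ℕ) : Prop :=
  match C i with
  | .input v => x v
  | .const b => b = true
  | .and a b => C.val x a ∧ C.val x b
  | .or a b => C.val x a ∨ C.val x b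
  | .not a => ¬ C.val x a
termination_by i
decreasing_by all_goals exact Fin.isLt _

/-- Number of NOT gates among the gates with numbers `< s`. -/
def Circuit.numNot {ι : Type} (C : Circuit ι) (s : ℕ) : ℕ :=
  ((range s).filter fun i => (C i).isNot = true).card

/-- The graph property `f` (of graphs on `Fin n`) is decided by a circuit with `s` gates, at most
`t` of which are NOT gates. -/
def HasCircuit (n s t : ℕ) (f : SimpleGraph (Fin n) → Prop) : Prop :=
  ∃ C : Circuit (Fin n × Fin n), C.numNot s ≤ t ∧
    ∃ o < s, ∀ G : SimpleGraph (Fin n), C.val (fun p => G.Adj p.1 p.2) o ↔ f G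

/-- The value of gate number `i` on the input `x` if every NOT gate `j` is replaced by the
constant `β j`. -/
def Circuit.mval {ι : Type} (C : Circuit ι) (β : ℕ → Prop) (x : ι → Prop) (i : ℕ) : Prop :=
  match C i with
  | .input v => x v
  | .const b => b = true
  | .and a b => C.mval β x a ∧ C.mval β x b
  | .or a b => C.mval β x a ∨ C.mval β x b
  | .not _ => β i
termination_by i
decreasing_by all_goals exact Fin.isLt _

/-! ### Random layers -/

/-- Indicator of a proposition. -/
noncomputable def ind (p : Prop) : ℝ := by classical exact if p then 1 else 0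

/-- Average over a finite type. -/
noncomputable def avg {Z : Type} [Fintype Z] (F : Z → ℝ) : ℝ := (∑ z, F z) / Fintype.card Z

/-- The layer given by `η`: the elements with label `0`. -/
def layer {E : Type} {Q : ℕ} (η : E → Fin Q) : Set E := {e | (η e : ℕ) = 0}

/-- Expectation of `F` at `S` plus one random layer (density `1 / Q`). -/
noncomputable def T {E : Type} [Fintype E] [DecidableEq E] (Q : ℕ) (F : Set E → ℝ) (S : Set E) :
    ℝ := avg fun η : E → Fin Q => F (S ∪ layer η)

/-- Some member of the family is contained in `S`. -/
def Hits {E : Type} (A : Finset (Finset E)) (S : Set E) : Prop := ∃ a ∈ A, (a : Set E) ⊆ S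

/-- Closed families (sets of size at most `L`): a set `b` of size at most `L` such that the
family almost surely hits `b` plus `R` random layers belongs to the family. -/
def Closed {E : Type} [Fintype E] [DecidableEq E] (Q R L : ℕ) (A : Finset (Finset E)) : Prop :=
  (∀ a ∈ A, a.card ≤ L) ∧
  ∀ b : Finset E, b.card ≤ L →
    (T Q)^[R] (fun S => ind (¬ Hits A (S ∪ (b : Set E)))) ∅ ≤ (3 / 4) ^ R → b ∈ A

/-- Minimal members of size `l`. -/
def minl {E : Type} [DecidableEq E] (A : Finset (Finset E)) (l : ℕ) : Finset (Finset E) :=
  A.filter fun a => a.card = l ∧ ∀ b ∈ A, b ⊆ a → b = a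

/-- `Y z` is a spread random set: small sets `a` are contained in `Y z` with probability at most
`(Q * ρ) ^ (- a.card)`. -/
def Spread {E Z : Type} [Fintype Z] (Y : Z → Set E) (Qρ L : ℕ) : Prop :=
  ∀ a : Finset E, a.card ≤ L →
    avg (fun z => ind ((a : Set E) ⊆ Y z)) ≤ (1 / (Qρ : ℝ)) ^ a.card

/-- Every coordinate of `a x` is constant or is membership of a fixed element in `x`. -/
def IsLit {E ι : Type} (a : Set E → ι → Prop) : Prop :=
  ∀ v, (∀ x, a x v) ∨ (∀ x, ¬ a x v) ∨ ∃ e, ∀ x, a x v ↔ e ∈ x

/-- Error term. -/
noncomputable def err (N R c ρ : ℕ) : ℝ :=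
  ((N : ℝ) + 1) ^ (2 * c) * (3 / 4) ^ R + 2 * (2 * c / ρ) ^ (c + 1)

/-! ### The constraint systems -/

/-- Inputs of the hard function: a position and a tuple of values. -/
abbrev El (q D u : ℕ) := Fin (q + 1) × (Fin D → Fin u)

/-- The planted set of `w`. -/
def Yw {q D u : ℕ} (φ : Fin (q + 1) → Fin D → Fin q) (w : Fin q → Fin u) : Set (El q D u) :=
  {e | e.2 = w ∘ φ e.1}

/-- Variables occurring in the positions of `S`. -/
def vars {q D : ℕ} (φ : Fin (q + 1) → Fin D → Fin q) (S : Finset (Fin (q + 1))) :
    Finset (Fin q) := S.biUnion fun j => univ.image (φ j)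

/-- Expansion: small sets of positions see almost only private variables. -/
def Expands {q D : ℕ} (φ : Fin (q + 1) → Fin D → Fin q) (r : ℕ) : Prop :=
  ∀ S : Finset (Fin (q + 1)), S.card ≤ r → (D - 2) * S.card ≤ (vars φ S).card

end FewNeg
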