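import Pool.Agent.Lib.MP_678664_lc_FN.Defs
import Pool.Agent.Lib.MP_678664_lc_FN.Basic

/-! Module M, first part: asymptotic estimates for the parameters. -/

open Finset Filter

namespace FewNeg

namespace M

/-- Error term times a polynomial is eventually at most one. -/
theorem err_small (q D c : ℕ) (hD : 6 ≤ D) (hc : D ≤ c) :
    ∀ᶠ u : ℕ in atTop, (u : ℝ) ^ (D - 6) * ((u : ℝ) ^ (c - D) *
      err ((q + 1) * u ^ D) u c u) ≤ 1 := by
  have h1 : Tendsto (fun u : ℕ => ((q : ℝ) + 2) ^ (2 * c) *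
      ((u : ℝ) ^ (c - 6 + D * (2 * c)) * (3 / 4 : ℝ) ^ u)) atTop (nhds (((q : ℝ) + 2) ^ (2 * c) * 0)) :=
    (tendsto_pow_const_mul_const_pow_of_abs_lt_one _
      (by rw [abs_of_pos] <;> norm_num)).const_mul _
  rw [mul_zero] at h1
  have h2 : Tendsto (fun u : ℕ => 2 * (2 * (c : ℝ)) ^ (c + 1) * (1 / (u : ℝ))) atTop
      (nhds (2 * (2 * (c : ℝ)) ^ (c + 1) * 0)) :=
    tendsto_one_div_atTop_nhds_zero_nat.const_mul _
  rw [mul_zero] at h2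
  filter_upwards [h1.eventually_le_const (show (0 : ℝ) < 1 / 2 by norm_num),
    h2.eventually_le_const (show (0 : ℝ) < 1 / 2 by norm_num), eventually_ge_atTop 1]
    with u hu1 hu2 hu
  have hu' : (1 : ℝ) ≤ u := by exact_mod_cast hu
  have hu0 : (0 : ℝ) < u := by linarith
  have e1 : (u : ℝ) ^ (D - 6) * (u : ℝ) ^ (c - D) = (u : ℝ) ^ (c - 6) := by
    rw [← pow_add]
    congr 1
    omega
  have e2 : (((q + 1) * u ^ D : ℕ) : ℝ) + 1 ≤ ((q : ℝ) + 2) * (u : ℝ) ^ D := by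
    push_cast
    have : (1 : ℝ) ≤ (u : ℝ) ^ D := one_le_pow₀ hu'
    nlinarith
  have e3 : ((((q + 1) * u ^ D : ℕ) : ℝ) + 1) ^ (2 * c) ≤
      ((q : ℝ) + 2) ^ (2 * c) * (u : ℝ) ^ (D * (2 * c)) := by
    calc _ ≤ (((q : ℝ) + 2) * (u : ℝ) ^ D) ^ (2 * c) :=
          pow_le_pow_left₀ (by positivity) e2 _
      _ = _ := by rw [mul_pow, ← pow_mul]
  rw [← mul_assoc, e1]
  unfold err
  rw [mul_add]
  have t1 : (u : ℝ) ^ (c - 6) * (((((q + 1) * u ^ D : ℕ) : ℝ) + 1) ^ (2 * c) * (3 / 4) ^ u) ≤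
      1 / 2 := by
    calc _ ≤ (u : ℝ) ^ (c - 6) * ((((q : ℝ) + 2) ^ (2 * c) * (u : ℝ) ^ (D * (2 * c))) *
          (3 / 4) ^ u) := by gcongr
      _ = ((q : ℝ) + 2) ^ (2 * c) * ((u : ℝ) ^ (c - 6 + D * (2 * c)) * (3 / 4 : ℝ) ^ u) := by
          rw [pow_add]; ring
      _ ≤ 1 / 2 := hu1
  have t2 : (u : ℝ) ^ (c - 6) * (2 * (2 * (c : ℝ) / (u : ℝ)) ^ (c + 1)) ≤ 1 / 2 := by
    have : (u : ℝ) ^ (c - 6) * (2 * (2 * (c : ℝ) / (u : ℝ)) ^ (c + 1)) ≤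
        2 * (2 * (c : ℝ)) ^ (c + 1) * (1 / (u : ℝ)) := by
      rw [div_pow, pow_succ (u : ℝ) c]
      have h3 : (u : ℝ) ^ (c - 6) ≤ (u : ℝ) ^ c := pow_le_pow_right₀ hu' (by omega)
      have h4 : (0 : ℝ) < (u : ℝ) ^ c := by positivity
      calc (u : ℝ) ^ (c - 6) * (2 * ((2 * (c : ℝ)) ^ (c + 1) / ((u : ℝ) ^ c * u)))
          ≤ (u : ℝ) ^ c * (2 * ((2 * (c : ℝ)) ^ (c + 1) / ((u : ℝ) ^ c * u))) := by gcongr
        _ = _ := by field_simp
    exact this.trans hu2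
  linarith

/-- Logarithms are small. -/
theorem log_small (K δ : ℝ) (hδ : 0 < δ) :
    ∀ᶠ n : ℕ in atTop, K * (2 * Real.logb 2 n + 1) < (n : ℝ) ^ δ := by
  have h1 : (fun x : ℝ => K * (2 * Real.logb 2 x + 1)) =o[atTop] fun x : ℝ => x ^ δ := by
    have a1 : (fun x : ℝ => Real.logb 2 x) =o[atTop] fun x : ℝ => x ^ δ := by
      have := (isLittleO_log_rpow_atTop hδ).const_mul_left (1 / Real.log 2)
      refine this.congr_left fun x => ?_
      simp only [Real.logb]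
      ring
    have a2 : (fun _ : ℝ => (1 : ℝ)) =o[atTop] fun x : ℝ => x ^ δ := by
      rw [Asymptotics.isLittleO_const_left]
      right
      exact tendsto_norm_atTop_atTop.comp (tendsto_rpow_atTop hδ)
    exact ((a1.const_mul_left 2).add a2).const_mul_left K
  have h2 := (h1.bound (show (0 : ℝ) < 1 / 2 by norm_num))
  have h3 : ∀ᶠ n : ℕ in atTop, ‖K * (2 * Real.logb 2 (n : ℝ) + 1)‖ ≤ 1 / 2 * ‖(n : ℝ) ^ δ‖ :=
    tendsto_natCast_atTop_atTop.eventually h2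
  filter_upwards [h3, eventually_ge_atTop 1] with n hn hn1
  have hn' : (0 : ℝ) < n := by exact_mod_cast hn1
  have hp : (0 : ℝ) < (n : ℝ) ^ δ := Real.rpow_pos_of_pos hn' _
  rw [Real.norm_of_nonneg hp.le] at hn
  calc _ ≤ ‖K * (2 * Real.logb 2 (n : ℝ) + 1)‖ := Real.le_norm_self _
    _ ≤ 1 / 2 * (n : ℝ) ^ δ := hn
    _ < _ := by linarith




/-- Choice of `u`. -/
theorem exists_u {a d e u₀ : ℕ} (ha : 0 < a) (hd : 0 < d) (hu₀ : 0 < u₀) {n : ℕ}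
    (hn : a * u₀ ^ d + e ≤ n) :
    ∃ u, u₀ ≤ u ∧ a * u ^ d + e ≤ n ∧ n ≤ (a * 2 ^ d + e) * u ^ d := by
  classical
  let P : ℕ → Prop := fun u => a * u ^ d + e ≤ n
  have hle : ∀ v, 0 < v → v ≤ a * v ^ d := fun v hv =>
    calc v = 1 * v ^ 1 := by ring
      _ ≤ a * v ^ d := Nat.mul_le_mul ha (Nat.pow_le_pow_right hv hd)
  have h0 : u₀ ≤ n := by
    have := hle u₀ hu₀
    omega
  have h1 : u₀ ≤ Nat.findGreatest P n := Nat.le_findGreatest h0 hn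
  have h2 : P (Nat.findGreatest P n) := Nat.findGreatest_spec h0 hn
  set u := Nat.findGreatest P n with hu
  have hupos : 0 < u := lt_of_lt_of_le hu₀ h1
  refine ⟨u, h1, h2, ?_⟩
  have h3 : ¬ P (u + 1) := by
    by_cases hk : u + 1 ≤ n
    · exact Nat.findGreatest_is_greatest (Nat.lt_succ_self _) hk
    · intro h
      have := hle (u + 1) (Nat.succ_pos _)
      have h' : a * (u + 1) ^ d + e ≤ n := h
      omega
  have h4 : n < a * (u + 1) ^ d + e := not_le.1 h3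
  have h5 : (u + 1) ^ d ≤ (2 * u) ^ d := Nat.pow_le_pow_left (by omega) _
  have h6 : 1 ≤ u ^ d := Nat.one_le_pow _ _ hupos
  calc n ≤ a * (u + 1) ^ d + e := h4.le
    _ ≤ a * (2 * u) ^ d + e * u ^ d := by
        refine Nat.add_le_add (Nat.mul_le_mul_left _ h5) ?_
        calc e = e * 1 := by ring
          _ ≤ _ := Nat.mul_le_mul_left _ h6
    _ = _ := by rw [mul_pow]; ring

/-- `(t + 1) * 2 ^ t` is at most `(2 * log n + 1) * n ^ (2 - ε)`. -/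
theorem neg_count {ε : ℝ} (hε : 0 < ε) {n t t' : ℕ} (hn : 1 ≤ n) (htt : t' ≤ t)
    (ht : (t : ℝ) ≤ (2 - ε) * Real.logb 2 n) :
    (((t' + 1) * 2 ^ t' : ℕ) : ℝ) ≤ (2 * Real.logb 2 n + 1) * (n : ℝ) ^ (2 - ε) := by
  have hn' : (1 : ℝ) ≤ n := by exact_mod_cast hn
  have hn0 : (0 : ℝ) < n := by linarith
  have hl : 0 ≤ Real.logb 2 n := Real.logb_nonneg (by norm_num) hn'
  have ht' : (t' : ℝ) ≤ t := by exact_mod_cast htt
  have h1 : (t' : ℝ) ≤ 2 * Real.logb 2 n := by nlinarith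
  have h2 : ((2 : ℝ) ^ t') ≤ (n : ℝ) ^ (2 - ε) := by
    calc ((2 : ℝ) ^ t') = (2 : ℝ) ^ (t' : ℝ) := (Real.rpow_natCast _ _).symm
      _ ≤ (2 : ℝ) ^ (Real.logb 2 n * (2 - ε)) :=
          Real.rpow_le_rpow_of_exponent_le (by norm_num) (by linarith)
      _ = (n : ℝ) ^ (2 - ε) := by
          rw [Real.rpow_mul (by norm_num), Real.rpow_logb (by norm_num) (by norm_num) hn0]
  push_cast
  have h3 : (0 : ℝ) ≤ 2 ^ t' := by positivity
  exact mul_le_mul (by linarith) h2 h3 (by linarith)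

/-- The number of layers is larger than the number of monotone functions. -/
theorem m_large {ε : ℝ} {d : ℕ} (hd : 3 ≤ d) (hdε : 13 / ε ≤ d) (hε : 0 < ε) (C : ℕ) :
    ∀ᶠ n : ℕ in atTop, ∀ u : ℕ, 0 < u → n ≤ C * u ^ d →
      4 * ((2 * Real.logb 2 n + 1) * (n : ℝ) ^ (2 - ε)) < (u : ℝ) ^ (2 * d - 6) := by
  have hd0 : (0 : ℝ) < d := by
    have : 0 < d := by omega
    exact_mod_cast this
  have hδ : 0 < ε - 6 / d := by
    have h1 : 13 / ε ≤ d := hdε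
    rw [div_le_iff₀ hε] at h1
    rw [sub_pos, div_lt_iff₀ hd0]
    nlinarith
  filter_upwards [log_small (4 * (C : ℝ) ^ (2 - 6 / (d : ℝ))) (ε - 6 / d) hδ,
    eventually_ge_atTop 1] with n hn hn1 u hu hnu
  have hn' : (0 : ℝ) < n := by exact_mod_cast hn1
  have hC : 0 < C := by
    rcases Nat.eq_zero_or_pos C with h | h
    · subst h
      simp at hnu
      omega
    · exact h
  have hC' : (0 : ℝ) < C := by exact_mod_cast hC
  have hu' : (0 : ℝ) < u := by exact_mod_cast hu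
  have hnu' : (n : ℝ) ≤ C * (u : ℝ) ^ d := by exact_mod_cast hnu
  have hexp : (0 : ℝ) ≤ 2 - 6 / (d : ℝ) := by
    rw [sub_nonneg, div_le_iff₀ hd0]
    have : (3 : ℝ) ≤ d := by exact_mod_cast hd
    linarith
  have e1 : ((u : ℝ) ^ d) ^ (2 - 6 / (d : ℝ)) = (u : ℝ) ^ (2 * d - 6) := by
    rw [← Real.rpow_natCast (u : ℝ) d, ← Real.rpow_mul hu'.le, ← Real.rpow_natCast]
    congr 1
    rw [Nat.cast_sub (by omega)]
    push_cast
    field_simp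
  have e2 : (n : ℝ) ^ (2 - 6 / (d : ℝ)) ≤ (C : ℝ) ^ (2 - 6 / (d : ℝ)) * (u : ℝ) ^ (2 * d - 6) := by
    calc (n : ℝ) ^ (2 - 6 / (d : ℝ)) ≤ (C * (u : ℝ) ^ d) ^ (2 - 6 / (d : ℝ)) :=
          Real.rpow_le_rpow hn'.le hnu' hexp
      _ = _ := by rw [Real.mul_rpow hC'.le (by positivity), e1]
  have e3 : (n : ℝ) ^ (ε - 6 / (d : ℝ)) * (n : ℝ) ^ (2 - ε) = (n : ℝ) ^ (2 - 6 / (d : ℝ)) := by
    rw [← Real.rpow_add hn']
    congr 1
    ring
  have hCp : (0 : ℝ) < (C : ℝ) ^ (2 - 6 / (d : ℝ)) := Real.rpow_pos_of_pos hC' _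
  have hnp : (0 : ℝ) < (n : ℝ) ^ (2 - ε) := Real.rpow_pos_of_pos hn' _
  have e4 := mul_lt_mul_of_pos_right hn hnp
  rw [e3] at e4
  have e5 := e4.trans_le e2
  have e6 : (C : ℝ) ^ (2 - 6 / (d : ℝ)) * (4 * ((2 * Real.logb 2 n + 1) * (n : ℝ) ^ (2 - ε))) <
      (C : ℝ) ^ (2 - 6 / (d : ℝ)) * (u : ℝ) ^ (2 * d - 6) := by
    calc _ = _ := by ring
      _ < _ := e5
  exact lt_of_mul_lt_mul_left e6 hCp.le

/-- The final comparison. -/
theorem final_exp {K d D k c : ℕ} (hK : 0 < K) (hkc : k ≤ 8 * K * (c - D)) {n u C : ℕ}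
    (hn : 1 ≤ n) (hu : 1 ≤ u) (hC : C ≤ u) (hnu : n ≤ C * u ^ d) :
    (n : ℝ) ^ (1 / (8 * (K : ℝ) * (d + 1)) * k) ≤ (u : ℝ) ^ (c - D) := by
  have hn' : (1 : ℝ) ≤ n := by exact_mod_cast hn
  have hu' : (1 : ℝ) ≤ u := by exact_mod_cast hu
  have hK' : (0 : ℝ) < K := by exact_mod_cast hK
  have h1 : n ≤ u ^ (d + 1) := by
    calc n ≤ C * u ^ d := hnu
      _ ≤ u * u ^ d := Nat.mul_le_mul_right _ hC
      _ = _ := by ring
  have h2 : (n : ℝ) ≤ (u : ℝ) ^ ((d : ℝ) + 1) := by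
    have : (n : ℝ) ≤ (u : ℝ) ^ (d + 1) := by exact_mod_cast h1
    rw [← Real.rpow_natCast] at this
    push_cast at this
    exact this
  have hk : (k : ℝ) ≤ 8 * K * ((c - D : ℕ) : ℝ) := by exact_mod_cast hkc
  calc (n : ℝ) ^ (1 / (8 * (K : ℝ) * (d + 1)) * k)
      ≤ ((u : ℝ) ^ ((d : ℝ) + 1)) ^ (1 / (8 * (K : ℝ) * (d + 1)) * k) :=
        Real.rpow_le_rpow (by linarith) h2 (by positivity)
    _ = (u : ℝ) ^ ((k : ℝ) / (8 * K)) := by
        rw [← Real.rpow_mul (by linarith)]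
        congr 1
        field_simp
    _ ≤ (u : ℝ) ^ (((c - D : ℕ) : ℝ)) := by
        refine Real.rpow_le_rpow_of_exponent_le hu' ?_
        rw [div_le_iff₀ (by positivity)]
        linarith
    _ = _ := Real.rpow_natCast _ _

end M

end FewNeg
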